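import Mathlib

/-!
# The convex hull of a compact set in finite dimension is compact
-/

namespace Pool.Agent.H25.Star

open Set Filter Topology

variable {X : Type*} [NormedAddCommGroup X] [NormedSpace ℝ X] [FiniteDimensional ℝ X]

theorem isCompact_convexHull {C : Set X} (hC : IsCompact C) : IsCompact (convexHull ℝ C) := by
  rcases C.eq_empty_or_nonempty with rfl | ⟨c₀, hc₀⟩
  · rw [convexHull_empty]; exact isCompact_empty
  set N := Module.finrank ℝ X + 1 with hN
  set K : Set ((Fin N → ℝ) × (Fin N → X)) :=
    stdSimplex ℝ (Fin N) ×ˢ (Set.pi univ fun _ => C) with hK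
  have hKc : IsCompact K := (isCompact_stdSimplex ℝ (Fin N)).prod (isCompact_univ_pi fun _ => hC)
  have hcont : Continuous fun p : (Fin N → ℝ) × (Fin N → X) => ∑ j, p.1 j • p.2 j := by
    fun_prop
  have himg : convexHull ℝ C = (fun p : (Fin N → ℝ) × (Fin N → X) => ∑ j, p.1 j • p.2 j) '' K := by
    apply Subset.antisymm
    · intro x hx
      obtain ⟨ι, hι, z, w, hz, haff, hw, hsum, hx⟩ := eq_pos_convex_span_of_mem_convexHull hx
      have hcard : Fintype.card ι ≤ Fintype.card (Fin N) := by
        rw [Fintype.card_fin, hN]
        refine haff.card_le_finrank_succ.trans ?_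
        gcongr
        exact Submodule.finrank_le _
      obtain ⟨e⟩ := Function.Embedding.nonempty_of_card_le hcard
      refine ⟨(Function.extend e w 0, Function.extend e z fun _ => c₀), ⟨⟨?_, ?_⟩, ?_⟩, ?_⟩
      · intro j
        dsimp only
        by_cases hj : ∃ i, e i = j
        · obtain ⟨i, rfl⟩ := hj
          rw [e.injective.extend_apply]
          exact (hw i).le
        · rw [Function.extend_apply' _ _ _ hj]
          exact le_rfl
      · rw [← hsum]
        refine (Fintype.sum_of_injective e e.injective w _ ?_ ?_).symm
        · intro j hj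
          dsimp only
          rw [Function.extend_apply' _ _ _ (fun ⟨i, hi⟩ => hj ⟨i, hi⟩)]
          rfl
        · intro i
          dsimp only
          rw [e.injective.extend_apply]
      · intro j _
        dsimp only
        by_cases hj : ∃ i, e i = j
        · obtain ⟨i, rfl⟩ := hj
          rw [e.injective.extend_apply]
          exact hz ⟨i, rfl⟩
        · rw [Function.extend_apply' _ _ _ hj]
          exact hc₀
      · rw [← hx]
        refine (Fintype.sum_of_injective e e.injective (fun i => w i • z i) _ ?_ ?_).symm
        · intro j hj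
          have h0 : Function.extend e w 0 j = 0 := by
            rw [Function.extend_apply' _ _ _ (fun ⟨i, hi⟩ => hj ⟨i, hi⟩)]
            rfl
          simp only [h0, zero_smul]
        · intro i
          simp only [e.injective.extend_apply]
    · rintro x ⟨⟨w, z⟩, ⟨hw, hz⟩, rfl⟩
      refine (convex_convexHull ℝ C).sum_mem (fun j _ => hw.1 j) hw.2 (fun j _ => ?_)
      exact subset_convexHull ℝ C (hz j (mem_univ j))
  rw [himg]
  exact hKc.image hcont

end Pool.Agent.H25.Star
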