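import Mathlib

/-!
# Extremal points and touching hyperplanes (helper25, part of the core theorem for MP_bd4439_gt)
-/

namespace Pool.Agent.H25.Star

open Set Filter Topology
open scoped RealInnerProductSpace

variable {X : Type*} [NormedAddCommGroup X] [InnerProductSpace ℝ X]

/-- The maximisers of `⟪n, ·⟫` on `C`. -/
def Arg (C : Set X) (n : X) : Set X := {y | y ∈ C ∧ ∀ z ∈ C, ⟪n, z⟫ ≤ ⟪n, y⟫}

/-- `Cen y d` for all directions `d` orthogonal to `n`. -/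
def Perp (Cen : X → X → Prop) (n y : X) : Prop := ∀ d, d ≠ 0 → ⟪n, d⟫ = 0 → Cen y d

/-- Sequential closedness of the relation `Cen`. -/
def ClosedCen (Cen : X → X → Prop) : Prop :=
  ∀ (y d : ℕ → X) (y₀ d₀ : X), Tendsto y atTop (𝓝 y₀) → Tendsto d atTop (𝓝 d₀) → d₀ ≠ 0 →
      (∀ n, Cen (y n) (d n)) → Cen y₀ d₀

/-- Touching from below gives centred planes. -/
def TouchBelow (r : X → ℝ) (Cen : X → X → Prop) : Prop :=
  ∀ (y d n : X) (η : ℝ), 0 < η → n ≠ 0 → d ≠ 0 → ⟪n, d⟫ = 0 →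
      (∀ h : X, ‖h‖ < η → r y + ⟪n, h⟫ ≤ r (y + h)) → Cen y d

theorem perp_lim {Cen : X → X → Prop} (hcl : ClosedCen Cen) {y n : ℕ → X} {y₀ n₀ : X}
    (hy : Tendsto y atTop (𝓝 y₀)) (hn : Tendsto n atTop (𝓝 n₀)) (hn₀ : n₀ ≠ 0)
    (h : ∀ᶠ k in atTop, Perp Cen (n k) (y k)) : Perp Cen n₀ y₀ := by
  intro d hd hnd
  set e : ℕ → X := fun k => d - (⟪n k, d⟫ / ‖n k‖ ^ 2) • n k with he
  have hed : Tendsto e atTop (𝓝 d) := by
    have h1 : Tendsto (fun k => ⟪n k, d⟫) atTop (𝓝 ⟪n₀, d⟫) := hn.inner tendsto_const_nhds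
    have h2 : Tendsto (fun k => ‖n k‖ ^ 2) atTop (𝓝 (‖n₀‖ ^ 2)) := hn.norm.pow 2
    have h3 : ‖n₀‖ ^ 2 ≠ 0 := pow_ne_zero _ (norm_ne_zero_iff.mpr hn₀)
    have h4 := (h1.div h2 h3).smul hn
    have h5 := (tendsto_const_nhds (x := d)).sub h4
    rw [hnd, zero_div, zero_smul, sub_zero] at h5
    exact h5
  have horth : ∀ k, ⟪n k, e k⟫ = 0 := by
    intro k
    rcases eq_or_ne (n k) 0 with h0 | h0
    · rw [h0, inner_zero_left]
    · have h3 : ‖n k‖ ^ 2 ≠ 0 := pow_ne_zero _ (norm_ne_zero_iff.mpr h0)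
      rw [he]
      simp only
      rw [inner_sub_right, real_inner_smul_right, real_inner_self_eq_norm_sq]
      field_simp
      ring
  have hne : ∀ᶠ k in atTop, e k ≠ 0 := hed.eventually_ne hd
  obtain ⟨N, hN⟩ := eventually_atTop.mp (h.and hne)
  refine hcl (fun k => y (k + N)) (fun k => e (k + N)) y₀ d ?_ ?_ hd ?_
  · exact (tendsto_add_atTop_iff_nat N).mpr hy
  · exact (tendsto_add_atTop_iff_nat N).mpr hed
  · intro k
    obtain ⟨h1, h2⟩ := hN (k + N) (by omega)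
    exact h1 _ h2 (horth _)

theorem perp_smul {Cen : X → X → Prop} {n y : X} {c : ℝ}
    (h : Perp Cen (c • n) y) : Perp Cen n y := by
  intro d hd hnd
  exact h d hd (by rw [real_inner_smul_left, hnd, mul_zero])

/-- **T1**: maximisers on the set of minimisers of `r` are centred. -/
theorem T1 {r : X → ℝ} (hr : Continuous r) {Cen : X → X → Prop} (hcl : ClosedCen Cen)
    (htouch : TouchBelow r Cen) {Q : Set X} (hQ : IsCompact Q) {m : ℝ}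
    (hm : ∀ y ∈ Q, m ≤ r y) (hne : ∃ y ∈ Q, r y = m)
    (hint : ∀ y ∈ Q, r y = m → y ∈ interior Q) {n : X} (hn : n ≠ 0) :
    ∃ y ∈ Arg {y | y ∈ Q ∧ r y = m} n, Perp Cen n y := by
  have hQne : Q.Nonempty := by
    obtain ⟨y, hy, _⟩ := hne
    exact ⟨y, hy⟩
  have hex : ∀ k : ℕ, ∃ y ∈ Q, ∀ z ∈ Q,
      r y - ⟪n, y⟫ / ((k : ℝ) + 1) ≤ r z - ⟪n, z⟫ / ((k : ℝ) + 1) := by
    intro k
    have hcont : Continuous fun y => r y - ⟪n, y⟫ / ((k : ℝ) + 1) := by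
      fun_prop
    obtain ⟨y, hy, hmin⟩ := hQ.exists_isMinOn hQne hcont.continuousOn
    exact ⟨y, hy, fun z hz => hmin hz⟩
  choose y hyQ hymin using hex
  obtain ⟨a, haQ, φ, hφ, hya⟩ := hQ.tendsto_subseq hyQ
  -- basic inequality
  have hbas : ∀ (k : ℕ) (c : X), c ∈ Q → r c = m →
      r (y k) ≤ m + (⟪n, y k⟫ - ⟪n, c⟫) * (1 / ((k : ℝ) + 1)) := by
    intro k c hc hcm
    have h1 := hymin k c hc
    rw [hcm] at h1
    have : (⟪n, y k⟫ - ⟪n, c⟫) * (1 / ((k : ℝ) + 1))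
        = ⟪n, y k⟫ / ((k : ℝ) + 1) - ⟪n, c⟫ / ((k : ℝ) + 1) := by ring
    rw [this]; linarith
  have hinn : ∀ (k : ℕ) (c : X), c ∈ Q → r c = m → ⟪n, c⟫ ≤ ⟪n, y k⟫ := by
    intro k c hc hcm
    have h1 := hbas k c hc hcm
    have h2 := hm (y k) (hyQ k)
    have h3 : 0 ≤ (⟪n, y k⟫ - ⟪n, c⟫) * (1 / ((k : ℝ) + 1)) := by linarith
    have h4 : (0 : ℝ) < 1 / ((k : ℝ) + 1) := by positivity
    have h5 := nonneg_of_mul_nonneg_left h3 h4
    linarith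
  have hlim1 : Tendsto (fun k => ⟪n, y (φ k)⟫) atTop (𝓝 ⟪n, a⟫) :=
    tendsto_const_nhds.inner hya
  have hlim2 : Tendsto (fun k => r (y (φ k))) atTop (𝓝 (r a)) :=
    (hr.tendsto a).comp hya
  have hlim3 : Tendsto (fun k : ℕ => (1 : ℝ) / (((φ k : ℕ) : ℝ) + 1)) atTop (𝓝 0) :=
    tendsto_one_div_add_atTop_nhds_zero_nat.comp hφ.tendsto_atTop
  have hra : r a = m := by
    apply le_antisymm _ (hm a haQ)
    obtain ⟨c, hc, hcm⟩ := hne
    have h1 : Tendsto (fun k => m + (⟪n, y (φ k)⟫ - ⟪n, c⟫) * (1 / (((φ k : ℕ) : ℝ) + 1)))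
        atTop (𝓝 (m + (⟪n, a⟫ - ⟪n, c⟫) * 0)) :=
      tendsto_const_nhds.add ((hlim1.sub tendsto_const_nhds).mul hlim3)
    have h2 := le_of_tendsto_of_tendsto' hlim2 h1 (fun k => hbas (φ k) c hc hcm)
    simpa using h2
  refine ⟨a, ⟨⟨haQ, hra⟩, ?_⟩, ?_⟩
  · intro z hz
    exact ge_of_tendsto' hlim1 (fun k => hinn (φ k) z hz.1 hz.2)
  · have haint : a ∈ interior Q := hint a haQ hra
    have hev : ∀ᶠ k in atTop, y (φ k) ∈ interior Q :=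
      hya (isOpen_interior.mem_nhds haint)
    refine perp_lim hcl hya (tendsto_const_nhds (x := n)) hn ?_
    filter_upwards [hev] with k hk
    obtain ⟨η, hη, hball⟩ := Metric.isOpen_iff.mp isOpen_interior _ hk
    have hpos : (0 : ℝ) < 1 / (((φ k : ℕ) : ℝ) + 1) := by positivity
    have hP : Perp Cen ((1 / (((φ k : ℕ) : ℝ) + 1)) • n) (y (φ k)) := by
      intro d hd hnd
      refine htouch (y (φ k)) d _ η hη (smul_ne_zero hpos.ne' hn) hd hnd ?_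
      intro h hh
      have hmem : y (φ k) + h ∈ Q := by
        apply interior_subset
        apply hball
        rw [Metric.mem_ball, dist_eq_norm]
        simpa using hh
      have h1 := hymin (φ k) _ hmem
      rw [inner_add_right] at h1
      rw [real_inner_smul_left]
      have h2 : (⟪n, y (φ k)⟫ + ⟪n, h⟫) / (((φ k : ℕ) : ℝ) + 1)
        = ⟪n, y (φ k)⟫ / (((φ k : ℕ) : ℝ) + 1) + 1 / (((φ k : ℕ) : ℝ) + 1) * ⟪n, h⟫ := by ring
      rw [h2] at h1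
      linarith
    exact perp_smul hP

theorem isCompact_Arg {C : Set X} (hC : IsCompact C) (n : X) : IsCompact (Arg C n) := by
  have : Arg C n = C ∩ ⋂ z ∈ C, {y | ⟪n, z⟫ ≤ ⟪n, y⟫} := by
    ext y
    simp [Arg]
  rw [this]
  refine hC.inter_right ?_
  refine isClosed_biInter fun z _ => ?_
  exact isClosed_le continuous_const (by fun_prop)

theorem T2a {Cen : X → X → Prop} (hcl : ClosedCen Cen) {C : Set X} (hC : IsCompact C)
    (hP : ∀ n : X, n ≠ 0 → ∃ y ∈ Arg C n, Perp Cen n y) {n : X} (hn : n ≠ 0) {y₁ y₂ : X}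
    (h₁ : y₁ ∈ Arg C n) (h₂ : y₂ ∈ Arg C n)
    (hmax : ∀ y ∈ Arg C n, ‖y - y₂‖ ≤ ‖y₁ - y₂‖) : Perp Cen n y₁ := by
  set κ : X := y₁ - y₂ with hκ
  have hnκ : ⟪n, κ⟫ = 0 := by
    rw [hκ, inner_sub_right]
    have := h₁.2 _ h₂.1
    have := h₂.2 _ h₁.1
    linarith
  have hnk : ∀ k : ℕ, n + (1 / ((k : ℝ) + 1)) • κ ≠ 0 := by
    intro k h0
    have h1 : ⟪n, n + (1 / ((k : ℝ) + 1)) • κ⟫ = 0 := by rw [h0, inner_zero_right]
    rw [inner_add_right, real_inner_smul_right, hnκ, mul_zero, add_zero,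
      real_inner_self_eq_norm_sq] at h1
    exact hn (norm_eq_zero.mp (by simpa using h1))
  have hex := fun k : ℕ => hP _ (hnk k)
  choose y hyA hyP using hex
  obtain ⟨a, haC, φ, hφ, hya⟩ := hC.tendsto_subseq (fun k => (hyA k).1)
  have hlim3 : Tendsto (fun k : ℕ => (1 : ℝ) / (((φ k : ℕ) : ℝ) + 1)) atTop (𝓝 0) :=
    tendsto_one_div_add_atTop_nhds_zero_nat.comp hφ.tendsto_atTop
  have hnlim : Tendsto (fun k => n + (1 / (((φ k : ℕ) : ℝ) + 1)) • κ) atTop (𝓝 n) := by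
    have := (tendsto_const_nhds (x := n)).add (hlim3.smul (tendsto_const_nhds (x := κ)))
    rw [zero_smul, add_zero] at this
    exact this
  have hlimn : Tendsto (fun k => ⟪n, y (φ k)⟫) atTop (𝓝 ⟪n, a⟫) :=
    tendsto_const_nhds.inner hya
  have hlimκ : Tendsto (fun k => ⟪κ, y (φ k)⟫) atTop (𝓝 ⟪κ, a⟫) :=
    tendsto_const_nhds.inner hya
  have haA : a ∈ Arg C n := by
    refine ⟨haC, fun z hz => ?_⟩
    have h1 : Tendsto (fun k => ⟪n + (1 / (((φ k : ℕ) : ℝ) + 1)) • κ, z⟫) atTop (𝓝 ⟪n, z⟫) :=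
      hnlim.inner tendsto_const_nhds
    have h2 : Tendsto (fun k => ⟪n + (1 / (((φ k : ℕ) : ℝ) + 1)) • κ, y (φ k)⟫) atTop
        (𝓝 ⟪n, a⟫) := hnlim.inner hya
    exact le_of_tendsto_of_tendsto' h1 h2 (fun k => (hyA (φ k)).2 z hz)
  have hκa : ⟪κ, y₁⟫ ≤ ⟪κ, a⟫ := by
    refine ge_of_tendsto' hlimκ (fun k => ?_)
    have h1 := (hyA (φ k)).2 y₁ h₁.1
    rw [inner_add_left, inner_add_left, real_inner_smul_left, real_inner_smul_left] at h1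
    have h2 := h₁.2 (y (φ k)) (hyA (φ k)).1
    have hpos : (0 : ℝ) < 1 / (((φ k : ℕ) : ℝ) + 1) := by positivity
    have h3 : 1 / (((φ k : ℕ) : ℝ) + 1) * ⟪κ, y₁⟫ ≤ 1 / (((φ k : ℕ) : ℝ) + 1) * ⟪κ, y (φ k)⟫ := by
      linarith
    exact le_of_mul_le_mul_left h3 hpos
  have hay : a = y₁ := by
    -- ‖a - y₂‖ ≤ ‖κ‖ and ⟪κ, a - y₂⟫ ≥ ‖κ‖²
    have h1 : ‖a - y₂‖ ≤ ‖κ‖ := hmax a haA
    have h2 : ‖κ‖ ^ 2 ≤ ⟪κ, a - y₂⟫ := by
      have h3 : ⟪κ, κ⟫ = ⟪κ, y₁⟫ - ⟪κ, y₂⟫ := by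
        rw [← inner_sub_right]
      rw [real_inner_self_eq_norm_sq] at h3
      rw [inner_sub_right]
      linarith
    have h4 : ‖(a - y₂) - κ‖ ^ 2 ≤ 0 := by
      rw [norm_sub_sq_real, real_inner_comm]
      have h5 : ‖a - y₂‖ ^ 2 ≤ ‖κ‖ ^ 2 := by gcongr
      linarith
    have h5 : (a - y₂) - κ = 0 := by
      have h6 : ‖(a - y₂) - κ‖ ^ 2 = 0 := le_antisymm h4 (by positivity)
      exact norm_eq_zero.mp (by simpa using h6)
    have : (a - y₂) - κ = a - y₁ := by rw [hκ]; abel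
    rw [this] at h5
    exact sub_eq_zero.mp h5
  rw [← hay]
  exact perp_lim hcl hya hnlim hn (Eventually.of_forall fun k => hyP (φ k))

/-- **T2**: maximisers are unique. -/
theorem T2 {r : X → ℝ} {Cen : X → X → Prop} {c₀ : ℝ} (hcl : ClosedCen Cen)
    (huniq : ∀ (y d : X) (t : ℝ), d ≠ 0 → t ≠ 0 → Cen y d → Cen (y + t • d) d →
      ∀ s : ℝ, r (y + s • d) = c₀)
    {C : Set X} (hC : IsCompact C)
    (hP : ∀ n : X, n ≠ 0 → ∃ y ∈ Arg C n, Perp Cen n y)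
    (hline : ∀ y ∈ C, ∀ d : X, d ≠ 0 → ∃ s : ℝ, r (y + s • d) ≠ c₀)
    {n : X} (hn : n ≠ 0) {y y' : X} (hy : y ∈ Arg C n) (hy' : y' ∈ Arg C n) : y = y' := by
  by_contra hne
  have hcomp : IsCompact (Arg C n ×ˢ Arg C n) := (isCompact_Arg hC n).prod (isCompact_Arg hC n)
  obtain ⟨⟨y₁, y₂⟩, hmem, hmax⟩ := hcomp.exists_isMaxOn ⟨(y, y'), hy, hy'⟩
    (f := fun p : X × X => ‖p.1 - p.2‖) (by fun_prop)
  have hmax' : ∀ a ∈ Arg C n, ∀ b ∈ Arg C n, ‖a - b‖ ≤ ‖y₁ - y₂‖ := by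
    intro a ha b hb
    exact hmax (show (a, b) ∈ Arg C n ×ˢ Arg C n from ⟨ha, hb⟩)
  have h₁ : y₁ ∈ Arg C n := hmem.1
  have h₂ : y₂ ∈ Arg C n := hmem.2
  have hne' : y₂ - y₁ ≠ 0 := by
    intro h0
    have h1 := hmax' y hy y' hy'
    rw [norm_sub_rev y₁ y₂, h0, norm_zero] at h1
    exact hne (sub_eq_zero.mp (norm_le_zero_iff.mp h1))
  have hP1 : Perp Cen n y₁ := T2a hcl hC hP hn h₁ h₂ (fun a ha => hmax' a ha y₂ h₂)
  have hP2 : Perp Cen n y₂ := T2a hcl hC hP hn h₂ h₁ (fun a ha => by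
    rw [norm_sub_rev y₂ y₁]; exact hmax' a ha y₁ h₁)
  have horth : ⟪n, y₂ - y₁⟫ = 0 := by
    rw [inner_sub_right]
    have := h₁.2 _ h₂.1
    have := h₂.2 _ h₁.1
    linarith
  have hc1 := hP1 _ hne' horth
  have hc2 := hP2 _ hne' horth
  obtain ⟨s, hs⟩ := hline y₁ h₁.1 _ hne'
  apply hs
  refine huniq y₁ (y₂ - y₁) 1 hne' one_ne_zero hc1 ?_ s
  have : y₁ + (1 : ℝ) • (y₂ - y₁) = y₂ := by rw [one_smul]; abel
  rw [this]
  exact hc2

end Pool.Agent.H25.Star
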