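import Mathlib
import Pool.Agent.H25.Star.CoreA
import Pool.Agent.H25.Star.HullCompact
import Pool.Agent.H63.Star.Iface

/-!
# The core extremal theorem (helper25) for MP_bd4439_gt

`Pool.Agent.H25.Star.core : Pool.Agent.H63.Star.CoreStmt`.
-/

namespace Pool.Agent.H25.Star

open Set Filter Topology
open scoped RealInnerProductSpace

variable {X : Type*} [NormedAddCommGroup X] [InnerProductSpace ℝ X]

/-- Points of the hull that maximise are the unique maximiser. -/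
theorem hull_singleton {C : Set X} {n y₀ : X} (h : ∀ z ∈ C, ⟪n, z⟫ < ⟪n, y₀⟫ ∨ z = y₀) {x : X}
    (hx : x ∈ convexHull ℝ C) : ⟪n, x⟫ < ⟪n, y₀⟫ ∨ x = y₀ := by
  have hconv : Convex ℝ {x : X | ⟪n, x⟫ < ⟪n, y₀⟫ ∨ x = y₀} := by
    intro a ha b hb α β hα hβ hαβ
    change ⟪n, a⟫ < ⟪n, y₀⟫ ∨ a = y₀ at ha
    change ⟪n, b⟫ < ⟪n, y₀⟫ ∨ b = y₀ at hb
    change ⟪n, α • a + β • b⟫ < ⟪n, y₀⟫ ∨ α • a + β • b = y₀
    have haa : ⟪n, a⟫ ≤ ⟪n, y₀⟫ := by
      rcases ha with ha | ha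
      · exact ha.le
      · rw [ha]
    have hbb : ⟪n, b⟫ ≤ ⟪n, y₀⟫ := by
      rcases hb with hb | hb
      · exact hb.le
      · rw [hb]
    rcases eq_or_lt_of_le hα with h0 | hαpos
    · rw [← h0, zero_add] at hαβ
      rw [← h0, hαβ, zero_smul, one_smul, zero_add]
      exact hb
    rcases eq_or_lt_of_le hβ with h0 | hβpos
    · rw [← h0, add_zero] at hαβ
      rw [← h0, hαβ, zero_smul, one_smul, add_zero]
      exact ha
    rw [inner_add_right, real_inner_smul_right, real_inner_smul_right]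
    have hsum : α * ⟪n, y₀⟫ + β * ⟪n, y₀⟫ = ⟪n, y₀⟫ := by rw [← add_mul, hαβ, one_mul]
    rcases ha with ha | ha
    · left
      have h1 : α * ⟪n, a⟫ < α * ⟪n, y₀⟫ := mul_lt_mul_of_pos_left ha hαpos
      have h2 : β * ⟪n, b⟫ ≤ β * ⟪n, y₀⟫ := mul_le_mul_of_nonneg_left hbb hβ
      linarith
    · rcases hb with hb | hb
      · left
        have h1 : α * ⟪n, a⟫ ≤ α * ⟪n, y₀⟫ := mul_le_mul_of_nonneg_left haa hα
        have h2 : β * ⟪n, b⟫ < β * ⟪n, y₀⟫ := mul_lt_mul_of_pos_left hb hβpos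
        linarith
      · right
        rw [ha, hb, ← add_smul, hαβ, one_smul]
  exact convexHull_min (fun z hz => h z hz) hconv hx

theorem hull_le {C : Set X} {n : X} {c : ℝ} (h : ∀ z ∈ C, ⟪n, z⟫ ≤ c) {x : X}
    (hx : x ∈ convexHull ℝ C) : ⟪n, x⟫ ≤ c := by
  have hconv : Convex ℝ {x : X | ⟪n, x⟫ ≤ c} := by
    intro a ha b hb α β hα hβ hαβ
    change ⟪n, a⟫ ≤ c at ha
    change ⟪n, b⟫ ≤ c at hb
    change ⟪n, α • a + β • b⟫ ≤ c
    rw [inner_add_right, real_inner_smul_right, real_inner_smul_right]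
    have : c = α * c + β * c := by rw [← add_mul, hαβ, one_mul]
    rw [this]
    gcongr
  exact convexHull_min (fun z hz => h z hz) hconv hx

/-- A maximiser on `C` is a maximiser on the hull. -/
theorem Arg_hull {C : Set X} {n y : X} (hy : y ∈ Arg C n) : y ∈ Arg (convexHull ℝ C) n :=
  ⟨subset_convexHull ℝ C hy.1, fun _ hz => hull_le hy.2 hz⟩

/-- Supporting hyperplanes of closed convex sets in finite dimension. -/
theorem support [FiniteDimensional ℝ X] {Q : Set X} (hcl : IsClosed Q) (hconv : Convex ℝ Q)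
    {q : X} (hq : q ∈ Q) (hint : q ∉ interior Q) : ∃ n : X, n ≠ 0 ∧ q ∈ Arg Q n := by
  have hclos : q ∈ closure (Qᶜ) := by
    rw [closure_compl]
    exact hint
  obtain ⟨x, hx, hxq⟩ := mem_closure_iff_seq_limit.mp hclos
  have hex : ∀ k : ℕ, ∃ n : X, ‖n‖ = 1 ∧ ∀ z ∈ Q, ⟪n, z⟫ ≤ ⟪n, x k⟫ := by
    intro k
    obtain ⟨f, u, hf, hu⟩ := geometric_hahn_banach_closed_point hconv hcl (hx k)
    obtain ⟨v, rfl⟩ := (InnerProductSpace.toDual ℝ X).surjective f
    simp only [InnerProductSpace.toDual_apply_apply] at hf hu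
    have hv : v ≠ 0 := by
      rintro rfl
      have := hf q hq
      rw [inner_zero_left] at this hu
      linarith
    have hvn : 0 < ‖v‖ := norm_pos_iff.mpr hv
    refine ⟨(‖v‖⁻¹) • v, ?_, ?_⟩
    · rw [norm_smul, norm_inv, norm_norm, inv_mul_cancel₀ hvn.ne']
    · intro z hz
      rw [real_inner_smul_left, real_inner_smul_left]
      have := hf z hz
      have h2 : 0 < ‖v‖⁻¹ := by positivity
      exact mul_le_mul_of_nonneg_left (by linarith) h2.le
  choose n hn1 hn2 using hex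
  obtain ⟨a, ha, φ, hφ, hlim⟩ := (isCompact_sphere (0 : X) 1).tendsto_subseq
    (x := n) (fun k => by rw [mem_sphere_zero_iff_norm]; exact hn1 k)
  refine ⟨a, ?_, hq, ?_⟩
  · rw [mem_sphere_zero_iff_norm] at ha
    rintro rfl
    rw [norm_zero] at ha
    exact zero_ne_one ha
  · intro z hz
    have h1 : Tendsto (fun k => ⟪n (φ k), z⟫) atTop (𝓝 ⟪a, z⟫) := hlim.inner tendsto_const_nhds
    have h2 : Tendsto (fun k => ⟪n (φ k), x (φ k)⟫) atTop (𝓝 ⟪a, q⟫) :=
      hlim.inner (hxq.comp hφ.tendsto_atTop)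
    exact le_of_tendsto_of_tendsto' h1 h2 (fun k => hn2 (φ k) z hz)

/-- Every line meeting a compact convex set leaves it through a non-interior point. -/
theorem exit_point {Q : Set X} (hQ : IsCompact Q) {y d : X} (hy : y ∈ Q) (hd : d ≠ 0) :
    ∃ s : ℝ, y + s • d ∈ Q ∧ y + s • d ∉ interior Q := by
  have hcont : Continuous fun s : ℝ => y + s • d := by fun_prop
  have hdn : 0 < ‖d‖ := norm_pos_iff.mpr hd
  obtain ⟨R, hR⟩ := hQ.isBounded.exists_norm_le
  have hK : IsCompact {s : ℝ | y + s • d ∈ Q} := by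
    refine Metric.isCompact_of_isClosed_isBounded (hQ.isClosed.preimage hcont) ?_
    refine (Metric.isBounded_Icc (-((R + ‖y‖) / ‖d‖)) ((R + ‖y‖) / ‖d‖)).subset ?_
    intro s hs
    have h1 : ‖y + s • d‖ ≤ R := hR _ hs
    have h2 : ‖s • d‖ ≤ R + ‖y‖ := by
      calc ‖s • d‖ = ‖(y + s • d) - y‖ := by rw [add_sub_cancel_left]
        _ ≤ ‖y + s • d‖ + ‖y‖ := norm_sub_le _ _
        _ ≤ R + ‖y‖ := by linarith
    rw [norm_smul, Real.norm_eq_abs] at h2
    have h3 : |s| ≤ (R + ‖y‖) / ‖d‖ := by rw [le_div_iff₀ hdn]; exact h2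
    exact abs_le.mp h3
  obtain ⟨s, hs, hmax⟩ := hK.exists_isMaxOn ⟨0, by simpa using hy⟩ continuousOn_id
  refine ⟨s, hs, fun hint => ?_⟩
  have hev : ∀ᶠ t in 𝓝 s, y + t • d ∈ interior Q :=
    (hcont.tendsto s) (isOpen_interior.mem_nhds hint)
  have hev2 : ∀ᶠ t in 𝓝[>] s, y + t • d ∈ interior Q := hev.filter_mono nhdsWithin_le_nhds
  obtain ⟨t, ht1, ht2⟩ := (hev2.and self_mem_nhdsWithin).exists
  have ht1' : y + t • d ∈ Q := interior_subset ht1
  have h1 : t ≤ s := hmax ht1'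
  exact absurd h1 (not_le.mpr ht2)

/-- The Zorn family. -/
structure Fam (r : X → ℝ) (Cen : X → X → Prop) (Q₀ Q : Set X) : Prop where
  sub : Q ⊆ Q₀
  comp : IsCompact Q
  conv : Convex ℝ Q
  ne : Q.Nonempty
  pair : ∀ n n' : X, n ≠ 0 → n' ≠ 0 →
    ∃ y ∈ Arg Q n, ∃ y' ∈ Arg Q n', Perp Cen n y ∧ Perp Cen n' y' ∧ r y = r y'

theorem isClosed_perp {Cen : X → X → Prop} (hcl : ClosedCen Cen) {n : X} (hn : n ≠ 0) :
    IsClosed {y : X | Perp Cen n y} := by
  rw [← isSeqClosed_iff_isClosed]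
  intro x a hx hxa
  exact perp_lim hcl hxa tendsto_const_nhds hn (Eventually.of_forall hx)

/-- The family is closed under intersections of chains. -/
theorem fam_chain {r : X → ℝ} (hr : Continuous r) {Cen : X → X → Prop} (hcl : ClosedCen Cen)
    {Q₀ : Set X} {c : Set (Set X)} (hc : ∀ Q ∈ c, Fam r Cen Q₀ Q) (hch : IsChain (· ⊆ ·) c)
    (hne : c.Nonempty) : Fam r Cen Q₀ (⋂₀ c) := by
  obtain ⟨P, hPc⟩ := hne
  have : Nonempty c := ⟨⟨P, hPc⟩⟩
  have hdir : Directed (· ⊇ ·) (fun Q : c => (Q : Set X)) := by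
    intro A B
    rcases hch.total A.2 B.2 with h | h
    · exact ⟨A, subset_rfl, h⟩
    · exact ⟨B, h, subset_rfl⟩
  have hnonempty : (⋂₀ c).Nonempty := by
    rw [sInter_eq_iInter]
    exact IsCompact.nonempty_iInter_of_directed_nonempty_isCompact_isClosed _ hdir
      (fun Q => (hc Q Q.2).ne) (fun Q => (hc Q Q.2).comp) (fun Q => (hc Q Q.2).comp.isClosed)
  have hcomp : IsCompact (⋂₀ c) :=
    (hc P hPc).comp.of_isClosed_subset
      (isClosed_sInter fun Q hQ => (hc Q hQ).comp.isClosed) (sInter_subset_of_mem hPc)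
  refine ⟨(sInter_subset_of_mem hPc).trans (hc P hPc).sub, hcomp,
    convex_sInter fun Q hQ => (hc Q hQ).conv, hnonempty, ?_⟩
  intro n n' hn hn'
  -- the maxima of the two functionals on the intersection
  obtain ⟨a, ha, hamax⟩ := hcomp.exists_isMaxOn hnonempty (f := fun z => ⟪n, z⟫) (by fun_prop)
  obtain ⟨b, hb, hbmax⟩ := hcomp.exists_isMaxOn hnonempty (f := fun z => ⟪n', z⟫) (by fun_prop)
  set S : c → Set (X × X) := fun Q =>
    ((Q : Set X) ×ˢ (Q : Set X)) ∩ ({p : X × X | ⟪n, a⟫ ≤ ⟪n, p.1⟫} ∩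
      ({p : X × X | ⟪n', b⟫ ≤ ⟪n', p.2⟫} ∩ ({p : X × X | Perp Cen n p.1} ∩
        ({p : X × X | Perp Cen n' p.2} ∩ {p : X × X | r p.1 = r p.2})))) with hS
  have hclosed : IsClosed ({p : X × X | ⟪n, a⟫ ≤ ⟪n, p.1⟫} ∩
      ({p : X × X | ⟪n', b⟫ ≤ ⟪n', p.2⟫} ∩ ({p : X × X | Perp Cen n p.1} ∩
        ({p : X × X | Perp Cen n' p.2} ∩ {p : X × X | r p.1 = r p.2})))) := by
    refine (isClosed_le continuous_const (by fun_prop)).inter ?_
    refine (isClosed_le continuous_const (by fun_prop)).inter ?_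
    refine ((isClosed_perp hcl hn).preimage continuous_fst).inter ?_
    refine ((isClosed_perp hcl hn').preimage continuous_snd).inter ?_
    exact isClosed_eq (hr.comp continuous_fst) (hr.comp continuous_snd)
  have hScomp : ∀ Q : c, IsCompact (S Q) := fun Q =>
    (((hc Q Q.2).comp.prod (hc Q Q.2).comp)).inter_right hclosed
  have hSne : ∀ Q : c, (S Q).Nonempty := by
    intro Q
    obtain ⟨y, hy, y', hy', h1, h2, h3⟩ := (hc Q Q.2).pair n n' hn hn'
    exact ⟨(y, y'), ⟨hy.1, hy'.1⟩, hy.2 a (ha Q Q.2), hy'.2 b (hb Q Q.2), h1, h2, h3⟩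
  have hSdir : Directed (· ⊇ ·) S := by
    intro A B
    rcases hch.total A.2 B.2 with h | h
    · exact ⟨A, subset_rfl, inter_subset_inter_left _ (prod_mono h h)⟩
    · exact ⟨B, inter_subset_inter_left _ (prod_mono h h), subset_rfl⟩
  obtain ⟨⟨y, y'⟩, hyy⟩ := IsCompact.nonempty_iInter_of_directed_nonempty_isCompact_isClosed S
    hSdir hSne hScomp (fun Q => (hScomp Q).isClosed)
  rw [mem_iInter] at hyy
  have hyQ : y ∈ ⋂₀ c := fun Q hQ => (hyy ⟨Q, hQ⟩).1.1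
  have hyQ' : y' ∈ ⋂₀ c := fun Q hQ => (hyy ⟨Q, hQ⟩).1.2
  obtain ⟨-, h1, h2, h3, h4, h5⟩ := hyy ⟨P, hPc⟩
  refine ⟨y, ⟨hyQ, fun z hz => ?_⟩, y', ⟨hyQ', fun z hz => ?_⟩, h3, h4, h5⟩
  · exact (hamax hz).trans h1
  · exact (hbmax hz).trans h2

theorem arg_not_interior {Q : Set X} {n q : X} (hn : n ≠ 0) (hq : q ∈ Arg Q n) :
    q ∉ interior Q := by
  intro hint
  have hcont : Continuous fun t : ℝ => q + t • n := by fun_prop
  have hev : ∀ᶠ t in 𝓝 (0 : ℝ), q + t • n ∈ interior Q := by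
    have h0 : interior Q ∈ 𝓝 (q + (0 : ℝ) • n) := by
      rw [zero_smul, add_zero]
      exact isOpen_interior.mem_nhds hint
    exact (hcont.tendsto 0) h0
  have hev2 : ∀ᶠ t in 𝓝[>] (0 : ℝ), q + t • n ∈ interior Q := hev.filter_mono nhdsWithin_le_nhds
  obtain ⟨t, ht1, ht2⟩ := (hev2.and self_mem_nhdsWithin).exists
  have h1 := hq.2 _ (interior_subset ht1)
  rw [inner_add_right, real_inner_smul_right, real_inner_self_eq_norm_sq] at h1
  have h2 : 0 < ‖n‖ := norm_pos_iff.mpr hn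
  have h3 : 0 < t := ht2
  have h4 : 0 < t * ‖n‖ ^ 2 := by positivity
  linarith

/-- If `r` takes a value below its constant value on the extreme points, the family has a
smaller member. -/
theorem fam_smaller [FiniteDimensional ℝ X] {r r' : X → ℝ} (hr' : Continuous r')
    (hrr : ∀ y z, r' y = r' z → r y = r z) {Cen : X → X → Prop}
    (hcl : ClosedCen Cen) (htouch : TouchBelow r' Cen) {Q₀ Q : Set X} (hQ : Fam r Cen Q₀ Q)
    (hmin : Minimal (Fam r Cen Q₀) Q)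
    (hsing : ∀ n : X, n ≠ 0 → ∀ y ∈ Arg Q n, ∀ y' ∈ Arg Q n, y = y')
    {c : ℝ} (hbd : ∀ y ∈ Q, y ∉ interior Q → r' y = c) {n₀ : X} (hn₀ : n₀ ≠ 0) :
    ∀ y ∈ Q, c ≤ r' y := by
  by_contra hcon
  push Not at hcon
  obtain ⟨z, hz, hzc⟩ := hcon
  obtain ⟨z₀, hz₀, hz₀min⟩ := hQ.comp.exists_isMinOn hQ.ne hr'.continuousOn
  set m := r' z₀ with hm
  have hmc : m < c := (hz₀min hz).trans_lt hzc
  set C : Set X := {y | y ∈ Q ∧ r' y = m} with hC
  have hCQ : C ⊆ Q := fun y hy => hy.1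
  have hCcomp : IsCompact C := hQ.comp.inter_right (isClosed_eq hr' continuous_const)
  have hT1 : ∀ n : X, n ≠ 0 → ∃ y ∈ Arg C n, Perp Cen n y := fun n hn =>
    T1 hr' hcl htouch hQ.comp (m := m) (fun y hy => hz₀min hy) ⟨z₀, hz₀, rfl⟩
      (fun y hy hym => by
        by_contra hint
        have := hbd y hy hint
        linarith) hn
  have hfam : Fam r Cen Q₀ (convexHull ℝ C) := by
    refine ⟨(convexHull_min hCQ hQ.conv).trans hQ.sub, ?_, convex_convexHull ℝ C,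
      ⟨z₀, subset_convexHull ℝ C ⟨hz₀, rfl⟩⟩, ?_⟩
    · exact isCompact_convexHull hCcomp
    · intro n n' hn hn'
      obtain ⟨y, hy, hyP⟩ := hT1 n hn
      obtain ⟨y', hy', hyP'⟩ := hT1 n' hn'
      exact ⟨y, Arg_hull hy, y', Arg_hull hy', hyP, hyP', hrr _ _ (hy.1.2.trans hy'.1.2.symm)⟩
  have hle : Q ⊆ convexHull ℝ C := hmin.2 hfam (convexHull_min hCQ hQ.conv)
  obtain ⟨q, hq, q', hq', hqP, -, -⟩ := hQ.pair n₀ n₀ hn₀ hn₀
  have hqc : r' q = c := hbd q hq.1 (arg_not_interior hn₀ hq)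
  obtain ⟨p, hp, hpmax⟩ := hCcomp.exists_isMaxOn ⟨z₀, hz₀, rfl⟩ (f := fun z => ⟪n₀, z⟫)
    (by fun_prop)
  have h1 : ⟪n₀, q⟫ ≤ ⟪n₀, p⟫ := hull_le (C := C) (fun z hz => hpmax hz) (hle hq.1)
  have h2 : p ∈ Arg Q n₀ := ⟨hCQ hp, fun z hz => (hq.2 z hz).trans h1⟩
  have h3 : p = q := hsing n₀ hn₀ p h2 q hq
  have h4 : r' p = m := hp.2
  rw [h3, hqc] at h4
  exact absurd h4 hmc.ne'

theorem exists_perp [FiniteDimensional ℝ X] (hdim : 2 ≤ Module.finrank ℝ X) (d : X) :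
    ∃ n : X, n ≠ 0 ∧ ⟪n, d⟫ = 0 := by
  have h1 : Module.finrank ℝ (Submodule.span ℝ {d}) ≤ 1 := by
    refine (finrank_span_le_card ({d} : Set X)).trans ?_
    simp
  have h2 := Submodule.finrank_add_finrank_orthogonal (Submodule.span ℝ {d})
  have h3 : (Submodule.span ℝ {d})ᗮ ≠ ⊥ := by
    intro h0
    rw [h0, finrank_bot] at h2
    omega
  obtain ⟨n, hn, hn0⟩ := Submodule.exists_mem_ne_zero_of_ne_bot h3
  refine ⟨n, hn0, ?_⟩
  have := (Submodule.mem_orthogonal _ _).mp hn d (Submodule.mem_span_singleton_self d)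
  rw [real_inner_comm]
  exact this

theorem core_aux [FiniteDimensional ℝ X] (r : X → ℝ) (Cen : X → X → Prop) (m c₀ R : ℝ)
    (hdim : 2 ≤ Module.finrank ℝ X) (hr : Continuous r) (hcl : ClosedCen Cen)
    (huniq : ∀ (y d : X) (t : ℝ), d ≠ 0 → t ≠ 0 → Cen y d → Cen (y + t • d) d →
      ∀ s : ℝ, r (y + s • d) = c₀)
    (htb : TouchBelow r Cen) (hta : TouchBelow (fun y => -r y) Cen)
    (hm : ∀ y, m ≤ r y) (hatt : ∃ y, r y = m) (hR : ∀ y : X, R < ‖y‖ → m < r y) (hmc : m < c₀) :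
    (∃ y, ∀ d, d ≠ 0 → Cen y d) ∨
    (∃ (y₀ : X) (ε c : ℝ), 0 < ε ∧ (∀ y ∈ Metric.ball y₀ ε, r y = c) ∧
      ∀ y ∈ Metric.ball y₀ ε, ∀ d, d ≠ 0 → ∃ s : ℝ, r (y + s • d) ≠ c₀) := by
  set M : Set X := {y | r y = m} with hM
  have hMball : ∀ y ∈ M, ‖y‖ ≤ R := by
    intro y hy
    by_contra hcon
    push Not at hcon
    have h1 := hR y hcon
    have h2 : r y = m := hy
    linarith
  have hMclosed : IsClosed M := isClosed_eq hr continuous_const
  have hMcomp : IsCompact M := by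
    refine Metric.isCompact_of_isClosed_isBounded hMclosed ?_
    refine (Metric.isBounded_closedBall (x := (0 : X)) (r := R)).subset fun y hy => ?_
    rw [mem_closedBall_zero_iff]
    exact hMball y hy
  have hset : {y | y ∈ Metric.closedBall (0 : X) (R + 1) ∧ r y = m} = M := by
    ext y
    constructor
    · intro h; exact h.2
    · intro h
      refine ⟨?_, h⟩
      rw [mem_closedBall_zero_iff]
      linarith [hMball y h]
  have hT1 : ∀ n : X, n ≠ 0 → ∃ y ∈ Arg M n, Perp Cen n y := by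
    intro n hn
    have := T1 hr hcl htb (isCompact_closedBall (0 : X) (R + 1)) (m := m) (fun y _ => hm y)
      (by
        obtain ⟨y, hy⟩ := hatt
        refine ⟨y, ?_, hy⟩
        rw [mem_closedBall_zero_iff]
        linarith [hMball y hy])
      (fun y _ hy => by
        apply Metric.ball_subset_interior_closedBall
        rw [mem_ball_zero_iff]
        linarith [hMball y hy]) hn
    rw [hset] at this
    exact this
  have hlineM : ∀ y ∈ M, ∀ d : X, d ≠ 0 → ∃ s : ℝ, r (y + s • d) ≠ c₀ := by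
    intro y hy d _
    refine ⟨0, ?_⟩
    rw [zero_smul, add_zero]
    have : r y = m := hy
    rw [this]
    exact hmc.ne
  have hsingM : ∀ n : X, n ≠ 0 → ∀ y ∈ Arg M n, ∀ y' ∈ Arg M n, y = y' :=
    fun n hn y hy y' hy' => T2 hcl huniq hMcomp hT1 hlineM hn hy hy'
  set Q₀ : Set X := convexHull ℝ M with hQ₀
  have hQ₀comp : IsCompact Q₀ := isCompact_convexHull hMcomp
  have hQ₀conv : Convex ℝ Q₀ := convex_convexHull ℝ M
  have hMQ₀ : M ⊆ Q₀ := subset_convexHull ℝ M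
  have hlineQ₀ : ∀ y ∈ Q₀, ∀ d : X, d ≠ 0 → ∃ s : ℝ, r (y + s • d) ≠ c₀ := by
    intro y hy d hd
    obtain ⟨s, hs, hsint⟩ := exit_point hQ₀comp hy hd
    obtain ⟨n, hn, hnA⟩ := support hQ₀comp.isClosed hQ₀conv hs hsint
    obtain ⟨yn, hyn, -⟩ := hT1 n hn
    have h1 : ⟪n, y + s • d⟫ < ⟪n, yn⟫ ∨ y + s • d = yn := by
      refine hull_singleton (C := M) (fun z hz => ?_) hs
      rcases (hyn.2 z hz).lt_or_eq with h | h
      · exact Or.inl h
      · right
        refine hsingM n hn z ⟨hz, fun w hw => ?_⟩ yn hyn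
        rw [h]
        exact hyn.2 w hw
    rcases h1 with h1 | h1
    · exact absurd (hnA.2 yn (hMQ₀ hyn.1)) (not_le.mpr h1)
    · refine ⟨s, ?_⟩
      rw [h1]
      have : r yn = m := hyn.1
      rw [this]
      exact hmc.ne
  have hfam₀ : Fam r Cen Q₀ Q₀ := by
    refine ⟨subset_rfl, hQ₀comp, hQ₀conv, ?_, ?_⟩
    · obtain ⟨y, hy⟩ := hatt
      exact ⟨y, hMQ₀ hy⟩
    · intro n n' hn hn'
      obtain ⟨y, hy, hyP⟩ := hT1 n hn
      obtain ⟨y', hy', hyP'⟩ := hT1 n' hn'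
      have e1 : r y = m := hy.1
      have e2 : r y' = m := hy'.1
      exact ⟨y, Arg_hull hy, y', Arg_hull hy', hyP, hyP', e1.trans e2.symm⟩
  obtain ⟨Q, -, hQmin⟩ := zorn_superset_nonempty {Q | Fam r Cen Q₀ Q}
    (fun c hc hch hne => ⟨⋂₀ c, fam_chain hr hcl (fun Q hQ => hc hQ) hch hne,
      fun s hs => sInter_subset_of_mem hs⟩) Q₀ hfam₀
  have hQ : Fam r Cen Q₀ Q := hQmin.1
  have hmin : Minimal (Fam r Cen Q₀) Q := hQmin
  by_cases hsub : ∀ y ∈ Q, ∀ y' ∈ Q, y = y'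
  · left
    obtain ⟨y, hy⟩ := hQ.ne
    refine ⟨y, fun d hd => ?_⟩
    obtain ⟨n, hn, hnd⟩ := exists_perp hdim d
    obtain ⟨z, hz, -, -, hP, -⟩ := hQ.pair n n hn hn
    rw [hsub y hy z hz.1]
    exact hP d hd hnd
  · right
    push Not at hsub
    obtain ⟨y₁, hy₁, y₂, hy₂, hne⟩ := hsub
    have hsing : ∀ n : X, n ≠ 0 → ∀ y ∈ Arg Q n, ∀ y' ∈ Arg Q n, y = y' := by
      intro n hn y hy y' hy'
      refine T2 hcl huniq hQ.comp ?_ (fun z hz => hlineQ₀ z (hQ.sub hz)) hn hy hy'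
      intro n' hn'
      obtain ⟨z, hz, -, -, hP, -⟩ := hQ.pair n' n' hn' hn'
      exact ⟨z, hz, hP⟩
    -- the midpoint is interior
    set q : X := (1 / 2 : ℝ) • y₁ + (1 / 2 : ℝ) • y₂ with hq
    have hqQ : q ∈ Q := hQ.conv hy₁ hy₂ (by norm_num) (by norm_num) (by norm_num)
    have hqint : q ∈ interior Q := by
      by_contra hcon
      obtain ⟨n, hn, hnA⟩ := support hQ.comp.isClosed hQ.conv hqQ hcon
      have e1 := hnA.2 y₁ hy₁
      have e2 := hnA.2 y₂ hy₂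
      have e3 : ⟪n, q⟫ = 1 / 2 * ⟪n, y₁⟫ + 1 / 2 * ⟪n, y₂⟫ := by
        rw [hq, inner_add_right, real_inner_smul_right, real_inner_smul_right]
      have f1 : y₁ ∈ Arg Q n := ⟨hy₁, fun z hz => (hnA.2 z hz).trans (by linarith)⟩
      have f2 : y₂ ∈ Arg Q n := ⟨hy₂, fun z hz => (hnA.2 z hz).trans (by linarith)⟩
      exact hne (hsing n hn y₁ f1 y₂ f2)
    have hn₀ : y₁ - y₂ ≠ 0 := sub_ne_zero.mpr hne
    obtain ⟨p, hp, -, -, -, -⟩ := hQ.pair _ _ hn₀ hn₀
    have hbd : ∀ y ∈ Q, y ∉ interior Q → r y = r p := by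
      intro y hy hyint
      obtain ⟨n, hn, hnA⟩ := support hQ.comp.isClosed hQ.conv hy hyint
      obtain ⟨z, hz, z', hz', -, -, hzz⟩ := hQ.pair n _ hn hn₀
      rw [hsing n hn y hnA z hz, hzz, hsing _ hn₀ z' hz' p hp]
    have hlow := fam_smaller (r := r) (r' := r) hr (fun y z h => h) hcl htb hQ hmin hsing hbd hn₀
    have hupp := fam_smaller (r := r) (r' := fun y => -r y) hr.neg (fun y z h => by
      have : -r y = -r z := h
      linarith) hcl hta hQ hmin hsing (c := -r p) (fun y hy hyint => by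
        rw [hbd y hy hyint]) hn₀
    have hconst : ∀ y ∈ Q, r y = r p := by
      intro y hy
      have h1 := hlow y hy
      have h2 := hupp y hy
      have h3 : -r p ≤ -r y := h2
      linarith
    obtain ⟨ε, hε, hball⟩ := Metric.isOpen_iff.mp isOpen_interior q hqint
    refine ⟨q, ε, r p, hε, fun y hy => hconst y (interior_subset (hball hy)), fun y hy d hd => ?_⟩
    exact hlineQ₀ y (hQ.sub (interior_subset (hball hy))) d hd

end Pool.Agent.H25.Star

/-- **Module B**: the core extremal theorem. -/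
theorem Pool.Agent.H25.Star.core : Pool.Agent.H63.Star.CoreStmt := by
  intro X _ _ _ r Cen m c₀ R hdim hr hcl _ huniq htb hta hm hatt hR hmc
  refine Pool.Agent.H25.Star.core_aux r Cen m c₀ R hdim hr hcl huniq htb ?_ hm hatt hR hmc
  intro y d n η hη hn hd hnd h
  refine hta y d (-n) η hη (neg_ne_zero.mpr hn) hd (by rw [inner_neg_left, hnd, neg_zero]) ?_
  intro k hk
  have := h k hk
  rw [inner_neg_left]
  linarith
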