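import Mathlib
import Pool.Agent.H63.Star.Iface2

/-!
# Module A: the touching lemma (helper25) for MP_bd4439_gt

`Pool.Agent.H25.Star.touch : Pool.Agent.H63.Star.TouchStmt`.
-/

namespace Pool.Agent.H25.Star

open Set Filter Topology
open scoped RealInnerProductSpace
open Pool.Agent.H63.Star

section Abstract

/-- Iteration: the quotient `P t / t` grows by a fixed amount at each step. -/
theorem touch_iter {P : ℝ → ℝ} {η₁ e : ℝ} (hη₁ : 0 < η₁) (he : 0 < e)
    (hbd : ∀ t, 0 < t → t ≤ η₁ → P t ≤ 1 / 4)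
    (hstep : ∀ t, 0 < t → t ≤ η₁ → ∃ t', 0 < t' ∧ t' ≤ t ∧ P t / t + e / 2 ≤ P t' / t')
    (C δ : ℝ) (hδ : 0 < δ) : ∃ t, 0 < t ∧ t < δ ∧ t ≤ η₁ ∧ C * t < P t := by
  have hseq : ∀ n : ℕ, ∃ t, 0 < t ∧ t ≤ η₁ ∧ P η₁ / η₁ + n * (e / 2) ≤ P t / t := by
    intro n
    induction n with
    | zero => exact ⟨η₁, hη₁, le_rfl, by simp⟩
    | succ n ih =>
      obtain ⟨t, ht, htη, hP⟩ := ih
      obtain ⟨t', ht', htt', hP'⟩ := hstep t ht htη
      refine ⟨t', ht', htt'.trans htη, ?_⟩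
      push_cast
      linarith
  obtain ⟨n, hn⟩ := exists_nat_gt ((max C (1 / δ) + 1 - P η₁ / η₁) / (e / 2))
  rw [div_lt_iff₀ (by positivity)] at hn
  obtain ⟨t, ht, htη, hP⟩ := hseq n
  have h1 : max C (1 / δ) < P t / t := by linarith
  have h2 : C < P t / t := (le_max_left _ _).trans_lt h1
  have h3 : 1 / δ < P t / t := (le_max_right _ _).trans_lt h1
  rw [lt_div_iff₀ ht] at h2 h3
  refine ⟨t, ht, ?_, htη, h2⟩
  have h4 := hbd t ht htη
  have h5 : 1 / δ * t < 1 := by linarith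
  rw [one_div, inv_mul_lt_iff₀ hδ] at h5
  linarith

theorem touch_num {M t α γ : ℝ} (hM : 0 < M) (ht : 0 < t) (hMt : M * t < 1 / 8)
    (hα1 : -1 < α) (hα2 : α < 1) (hγ1 : 1 / 2 < γ) (hγ2 : γ < 3 / 2) :
    0 < γ / M - α * t ∧ 0 < t / (γ / M - α * t) ∧ t / (γ / M - α * t) ≤ 4 * M * t ∧
      1 / 2 < 1 + t / (γ / M - α * t) * α ∧
      1 + t / (γ / M - α * t) * α ≤ 1 + t / (γ / M - α * t) ∧
      1 - t / (γ / M - α * t) ≤ 1 + t / (γ / M - α * t) * α ∧
      t / (γ / M - α * t) * γ / (1 + t / (γ / M - α * t) * α) ≤ 3 * (t / (γ / M - α * t)) := by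
  set κ := γ / M - α * t with hκ
  have hκM : M * κ = γ - α * (M * t) := by
    rw [hκ]; field_simp
  have hMt0 : 0 < M * t := mul_pos hM ht
  have hκM4 : 1 / 4 < M * κ := by
    rw [hκM]
    have : α * (M * t) < 1 * (M * t) := mul_lt_mul_of_pos_right hα2 hMt0
    linarith
  have hκpos : 0 < κ := by
    by_contra hcon
    push Not at hcon
    have : M * κ ≤ 0 := mul_nonpos_of_nonneg_of_nonpos hM.le hcon
    linarith
  have hβpos : 0 < t / κ := div_pos ht hκpos
  have hβle : t / κ ≤ 4 * M * t := by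
    rw [div_le_iff₀ hκpos]
    have h1 : 4 * M * t * κ = t * (4 * (M * κ)) := by ring
    rw [h1]
    have h2 : t * 1 ≤ t * (4 * (M * κ)) := mul_le_mul_of_nonneg_left (by linarith) ht.le
    linarith
  set β := t / κ
  have hβhalf : β < 1 / 2 := by
    have : 4 * M * t = 4 * (M * t) := by ring
    linarith
  have h1 : β * (-1) ≤ β * α := mul_le_mul_of_nonneg_left hα1.le hβpos.le
  have h2 : β * α ≤ β * 1 := mul_le_mul_of_nonneg_left hα2.le hβpos.le
  refine ⟨hκpos, hβpos, hβle, by linarith, by linarith, by linarith, ?_⟩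
  rw [div_le_iff₀ (by linarith)]
  have h3 : β * γ ≤ β * (3 / 2) := mul_le_mul_of_nonneg_left hγ2.le hβpos.le
  have h4 : 3 * β * (1 / 2) ≤ 3 * β * (1 + β * α) :=
    mul_le_mul_of_nonneg_left (by linarith) (by linarith)
  linarith

theorem touch_numF {N f₀ l₀ τ β γ Fx Fw L C t M : ℝ} (hN : 0 < N) (hf₀ : 0 < f₀) (hl₀ : 0 < l₀)
    (hL : 0 < L) (hβ : 0 < β) (hγ : γ < 3 / 2) (hτ : N * τ = β * γ) (hN3 : 1 - β ≤ N)
    (hβM : β ≤ 4 * M * t) (hC : C = 4 * M * (f₀ + 2 + 2 * l₀ + L))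
    (h1 : f₀ - l₀ * τ ≤ Fx) (h2 : N * Fx ≤ Fw + β) : f₀ - C * t ≤ Fw := by
  have h3 : N * (f₀ - l₀ * τ) ≤ N * Fx := mul_le_mul_of_nonneg_left h1 hN.le
  have h4 : N * (f₀ - l₀ * τ) = N * f₀ - l₀ * (β * γ) := by rw [← hτ]; ring
  have h5 : (1 - β) * f₀ ≤ N * f₀ := mul_le_mul_of_nonneg_right hN3 hf₀.le
  have h6 : l₀ * (β * γ) ≤ l₀ * (β * 2) := by
    apply mul_le_mul_of_nonneg_left _ hl₀.le
    apply mul_le_mul_of_nonneg_left _ hβ.le
    linarith
  have h7 : β * (f₀ + 2 + 2 * l₀ + L) ≤ C * t := by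
    have : C * t = 4 * M * t * (f₀ + 2 + 2 * l₀ + L) := by rw [hC]; ring
    rw [this]
    exact mul_le_mul_of_nonneg_right hβM (by positivity)
  have h8 : 0 < β * L := mul_pos hβ hL
  have h9 : (1 - β) * f₀ = f₀ - β * f₀ := by ring
  have h10 : β * (f₀ + 2 + 2 * l₀ + L) = β * f₀ + 2 * β + l₀ * (β * 2) + β * L := by ring
  linarith

theorem touch_numG {N f₀ l₀ τ β γ Gx Gw L r C t M : ℝ} (hN : 0 < N) (hf₀ : 0 < f₀) (hl₀ : 0 < l₀)
    (hL : 0 < L) (hβ : 0 < β) (hγ : γ < 3 / 2) (hτ : N * τ = β * γ) (hN2 : N ≤ 1 + β)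
    (hβM : β ≤ 4 * M * t) (hC : C = 4 * M * (f₀ + 2 + 2 * l₀ + L)) (hr : r < L)
    (h1 : Gx ≤ f₀ + τ) (h2 : Gw - r * β ≤ N * Gx) : Gw ≤ f₀ + C * t := by
  have h3 : N * Gx ≤ N * (f₀ + τ) := mul_le_mul_of_nonneg_left h1 hN.le
  have h4 : N * (f₀ + τ) = N * f₀ + β * γ := by rw [mul_add, hτ]
  have h5 : N * f₀ ≤ (1 + β) * f₀ := mul_le_mul_of_nonneg_right hN2 hf₀.le
  have h6 : r * β ≤ L * β := mul_le_mul_of_nonneg_right hr.le hβ.le
  have h7 : β * γ ≤ β * 2 := mul_le_mul_of_nonneg_left (by linarith) hβ.le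
  have h8 : β * (f₀ + 2 + 2 * l₀ + L) ≤ C * t := by
    have : C * t = 4 * M * t * (f₀ + 2 + 2 * l₀ + L) := by rw [hC]; ring
    rw [this]
    exact mul_le_mul_of_nonneg_right hβM (by positivity)
  have h9 : 0 < β * l₀ := mul_pos hβ hl₀
  have h10 : (1 + β) * f₀ = f₀ + β * f₀ := by ring
  have h11 : β * (f₀ + 2 + 2 * l₀ + L) = β * f₀ + β * 2 + 2 * (β * l₀) + L * β := by ring
  linarith

end Abstract

section Normed

variable {E : Type*} [NormedAddCommGroup E] [NormedSpace ℝ E] {F G : E → ℝ}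

theorem gauge_scale (hG : IsGauge G) {c : ℝ} (hc : 0 < c) : IsGauge (fun z => c * G z) where
  cont := by have := hG.cont; fun_prop
  hom t x ht := by simp only [hG.hom t x ht]; ring
  pos x hx := mul_pos hc (hG.pos x hx)

theorem rel_scale (hG : IsGauge G) {c : ℝ} (hc : 0 < c) {S : Submodule ℝ E} {x : E} {l : ℝ}
    (h : Rel F G S x l) : Rel F (fun z => c * G z) S x (l * c) := by
  refine ⟨h.1, mul_pos h.2.1 hc, fun z hz => ?_⟩
  have h1 := h.2.2 (c • z) (S.smul_mem c hz)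
  rw [smul_smul, hG.hom c z hc.le] at h1
  exact h1

/-- The self-similarity of the pair along a centred line. -/
theorem selfmap (hF : IsGauge F) (hG : IsGauge G) {S : Submodule ℝ E} {a l f₀ t : ℝ} {v w : E}
    (h : Rel F G S (a • v) l) (hf₀ : 0 < f₀) (hal : a * f₀ + l = 1) (hl1 : l < 1)
    (hS : v + t • w ∈ S) (hne : v + t • w ≠ 0) (ht : 0 < t) :
    ∃ t', 0 < t' ∧ t' < t ∧
      (F (v + t' • w) / f₀ - 1) / t' = (G (v + t • w) / f₀ - 1) / t := by
  have hl := h.2.1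
  set g := G (v + t • w) with hg
  have hgpos : 0 < g := hG.pos _ hne
  set D := (1 - l) * g + l * f₀ with hD
  have hDpos : 0 < D := by
    have h1 : 0 < (1 - l) * g := mul_pos (by linarith) hgpos
    have h2 : 0 < l * f₀ := mul_pos hl hf₀
    linarith
  have hDlt : l * f₀ < D := by
    have h1 : 0 < (1 - l) * g := mul_pos (by linarith) hgpos
    linarith
  refine ⟨l * f₀ * t / D, by positivity, ?_, ?_⟩
  · rw [div_lt_iff₀ hDpos]
    nlinarith
  have hmap := h.map hF hG hS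
  rw [← hg] at hmap
  have ha : a = (1 - l) / f₀ := by
    rw [eq_div_iff hf₀.ne']; linarith
  have e1 : g • a • v + l • (v + t • w) = (D / f₀) • (v + (l * f₀ * t / D) • w) := by
    rw [smul_add, smul_add, smul_smul, smul_smul, smul_smul]
    have c1 : D / f₀ = g * a + l := by
      rw [ha, hD]; field_simp
    have c2 : D / f₀ * (l * f₀ * t / D) = l * t := by
      field_simp
    rw [c2, c1, add_smul]
    abel
  rw [e1, hF.hom _ _ (by positivity)] at hmap
  have hFv : F (v + (l * f₀ * t / D) • w) = g * f₀ / D := by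
    rw [eq_div_iff hDpos.ne']
    have : D / f₀ * F (v + (l * f₀ * t / D) • w) * f₀ = g * f₀ := by rw [hmap]
    rw [← this]
    field_simp
  rw [hFv]
  have hgD : g - D = l * (g - f₀) := by rw [hD]; ring
  have e2 : g * f₀ / D / f₀ - 1 = l * (g - f₀) / D := by
    rw [← hgD]
    field_simp
  rw [e2]
  field_simp

end Normed

section Main

variable {E : Type*} [NormedAddCommGroup E] [InnerProductSpace ℝ E] [FiniteDimensional ℝ E]
  {F G : E → ℝ}

/-- (A3): Lipschitz bounds from the non-centred plane. -/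
theorem touch_lip (hF : IsGauge F) (hG : IsGauge G) (hP : Planar F G) {v d w x : E} {p q f₀ : ℝ}
    (hvd : LinearIndependent ℝ ![v, d]) (hx : x = ctr F G v d) (hxpq : x = q • d + p • v)
    (hq : q ≠ 0) (hf₀ : 0 < f₀) (hFv : F v = f₀) (hGv : G v = f₀) {η : ℝ} (hη : 0 < η)
    (htouch : ∀ s : ℝ, ‖s • d‖ < η → G (v + s • d) ≤ F (v + s • d))
    (hv1 : v ∉ Submodule.span ℝ {x, w}) (hx1 : x ∉ Submodule.span ℝ {v, w}) :
    ∃ C η₃ : ℝ, 0 < η₃ ∧ ∀ t, 0 < t → t < η₃ →
      f₀ - C * t ≤ F (v + t • w) ∧ G (v + t • w) ≤ f₀ + C * t := by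
  have hvx : LinearIndependent ℝ ![v, x] := by
    have := indep_smul hvd (s := 1) (t := q) (c := p) one_ne_zero hq
    rw [one_smul, ← hxpq] at this
    exact this
  have hspan : Submodule.span ℝ {v, x} = Submodule.span ℝ {v, d} := by
    have := span_smul (a := v) (b := d) (s := 1) (t := q) (c := p) one_ne_zero hq
    rw [one_smul, ← hxpq] at this
    exact this
  have hctr : ctr F G v x = x := by rw [ctr_congr hspan, ← hx]
  have hR := hP.rel hvd
  rw [← hx] at hR
  set l₀ := rat F G v d with hl₀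
  have hl₀pos : 0 < l₀ := hR.2.1
  have hvS : v ∈ Submodule.span ℝ {v, d} := Submodule.subset_span (by simp)
  -- functionals
  obtain ⟨fv, hfv0, hfv1⟩ := LinearMap.exists_extend_of_notMem
    (0 : Submodule.span ℝ {x, w} →ₗ[ℝ] ℝ) hv1 1
  obtain ⟨fx, hfx0, hfx1⟩ := LinearMap.exists_extend_of_notMem
    (0 : Submodule.span ℝ {v, w} →ₗ[ℝ] ℝ) hx1 1
  have hfvx : fv x = 0 := by
    have := congrArg (fun f => f ⟨x, Submodule.subset_span (by simp)⟩) hfv0
    simpa using this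
  have hfvw : fv w = 0 := by
    have := congrArg (fun f => f ⟨w, Submodule.subset_span (by simp)⟩) hfv0
    simpa using this
  have hfxv : fx v = 0 := by
    have := congrArg (fun f => f ⟨v, Submodule.subset_span (by simp)⟩) hfx0
    simpa using this
  have hfxw : fx w = 0 := by
    have := congrArg (fun f => f ⟨w, Submodule.subset_span (by simp)⟩) hfx0
    simpa using this
  have hfvc : Continuous fv := fv.continuous_of_finiteDimensional
  have hfxc : Continuous fx := fx.continuous_of_finiteDimensional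
  -- continuity at (v, x)
  have hcc := ctr_cont hP hF hG hvx
  have hrc := rat_cont hP hF hG hvx
  set L := rat F G v x + 1 with hL
  have hLpos : 0 < L := by have := rat_pos F G v x; linarith
  have e1 : ∀ᶠ z : E × E in 𝓝 (v, x), |fv (ctr F G z.1 z.2)| < 1 := by
    have h1 : Tendsto (fun z : E × E => |fv (ctr F G z.1 z.2)|) (𝓝 (v, x))
        (𝓝 |fv (ctr F G v x)|) := ((hfvc.tendsto _).comp hcc).abs
    rw [hctr, hfvx, abs_zero] at h1
    exact h1.eventually (gt_mem_nhds one_pos)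
  have e2 : ∀ᶠ z : E × E in 𝓝 (v, x), |fx (ctr F G z.1 z.2) - 1| < 1 / 2 := by
    have h1 : Tendsto (fun z : E × E => |fx (ctr F G z.1 z.2) - 1|) (𝓝 (v, x))
        (𝓝 |fx (ctr F G v x) - 1|) := (((hfxc.tendsto _).comp hcc).sub_const 1).abs
    rw [hctr, hfx1, sub_self, abs_zero] at h1
    exact h1.eventually (gt_mem_nhds (by norm_num))
  have e3 : ∀ᶠ z : E × E in 𝓝 (v, x), rat F G z.1 z.2 < L :=
    hrc.tendsto.eventually (gt_mem_nhds (by rw [hL]; linarith))
  have e4 := indep_iff_eventually hvx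
  obtain ⟨ρ, hρ, hball⟩ := Metric.eventually_nhds_iff.mp (((e1.and e2).and e3).and e4)
  -- smallness along the plane
  obtain ⟨δ, hδ, hδs⟩ : ∃ δ > 0, ∀ τ : ℝ, 0 ≤ τ → τ < δ →
      0 < 1 + τ * p ∧ ‖(τ * q / (1 + τ * p)) • d‖ < η := by
    have c1 : ContinuousAt (fun τ : ℝ => 1 + τ * p) 0 := by fun_prop
    have c2 : ContinuousAt (fun τ : ℝ => ‖(τ * q / (1 + τ * p)) • d‖) 0 := by
      have : ContinuousAt (fun τ : ℝ => τ * q / (1 + τ * p)) 0 :=
        ContinuousAt.div (by fun_prop) c1 (by simp)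
      exact (this.smul continuousAt_const).norm
    have h1 : ∀ᶠ τ in 𝓝 (0 : ℝ), 0 < 1 + τ * p :=
      c1.tendsto.eventually (lt_mem_nhds (by simp))
    have h2 : ∀ᶠ τ in 𝓝 (0 : ℝ), ‖(τ * q / (1 + τ * p)) • d‖ < η :=
      c2.tendsto.eventually (gt_mem_nhds (by simpa using hη))
    obtain ⟨δ, hδ, h⟩ := Metric.eventually_nhds_iff.mp (h1.and h2)
    refine ⟨δ, hδ, fun τ h0 hτ => h ?_⟩
    rw [Real.dist_eq, sub_zero, abs_of_nonneg h0]
    exact hτ
  set M := ‖w‖ / ρ + 1 with hM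
  have hMpos : 0 < M := by positivity
  have hMw : ‖w‖ / M < ρ := by
    rw [div_lt_iff₀ hMpos, hM, mul_add, mul_one, mul_div_cancel₀ _ hρ.ne']
    linarith
  set C := 4 * M * (f₀ + 2 + 2 * l₀ + L) with hC
  refine ⟨C, min (ρ / (‖w‖ + 1)) (min (1 / (8 * M)) (δ / (12 * M))), by positivity, ?_⟩
  intro t ht htlt
  have ht1 : t < ρ / (‖w‖ + 1) := htlt.trans_le (min_le_left _ _)
  have ht2 : t < 1 / (8 * M) := htlt.trans_le ((min_le_right _ _).trans (min_le_left _ _))
  have ht3 : t < δ / (12 * M) := htlt.trans_le ((min_le_right _ _).trans (min_le_right _ _))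
  rw [lt_div_iff₀ (by positivity)] at ht1 ht2 ht3
  set b := x - (1 / M) • w with hb
  have hdist : dist (v + t • w, b) (v, x) < ρ := by
    rw [Prod.dist_eq, max_lt_iff]
    constructor
    · change dist (v + t • w) v < ρ
      rw [dist_eq_norm, add_sub_cancel_left, norm_smul, Real.norm_of_nonneg ht.le]
      have : t * (‖w‖ + 1) = t * ‖w‖ + t := by ring
      linarith
    · change dist b x < ρ
      rw [dist_eq_norm, hb, sub_sub_cancel_left, norm_neg, norm_smul, Real.norm_of_nonneg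
        (by positivity), one_div, inv_mul_eq_div]
      exact hMw
  obtain ⟨⟨⟨hα, hγ⟩, hrat⟩, hind⟩ := hball hdist
  simp only at hα hγ hrat hind
  obtain ⟨α, γ, hc⟩ := Submodule.mem_span_pair.1 (ctr_mem F G (v + t • w) b)
  have hαe : fv (ctr F G (v + t • w) b) = α := by
    rw [← hc, hb]
    simp only [map_add, map_smul, map_sub, hfv1, hfvx, hfvw, smul_eq_mul]
    ring
  have hγe : fx (ctr F G (v + t • w) b) = γ := by
    rw [← hc, hb]
    simp only [map_add, map_smul, map_sub, hfx1, hfxv, hfxw, smul_eq_mul]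
    ring
  rw [hαe] at hα
  rw [hγe] at hγ
  rw [abs_lt] at hα hγ
  obtain ⟨hα1, hα2⟩ := hα
  obtain ⟨hγ1, hγ2⟩ := hγ
  have hMt : M * t < 1 / 8 := by linarith
  obtain ⟨hκpos, hβpos, hβle, hN, hN2, hN3, hτle⟩ := touch_num hMpos ht hMt hα1 hα2
    (by linarith) (by linarith : γ < 3 / 2)
  set κ := γ / M - α * t with hκ
  set β := t / κ with hβ
  have hβκ : β * κ = t := by rw [hβ]; field_simp
  have hNpos : 0 < 1 + β * α := by linarith
  set τ := β * γ / (1 + β * α) with hτ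
  have hγpos : 0 < γ := by linarith
  have hτpos : 0 < τ := by positivity
  have hτN : (1 + β * α) * τ = β * γ := by rw [hτ]; field_simp
  have hτδ : τ < δ := by
    have : τ ≤ 12 * M * t := by linarith
    linarith
  obtain ⟨hp1, hp2⟩ := hδs τ hτpos.le hτδ
  -- comparison on the plane
  have hyd : v + τ • x = (1 + τ * p) • (v + (τ * q / (1 + τ * p)) • d) := by
    have c1 : (1 + τ * p) * (τ * q / (1 + τ * p)) = τ * q := by field_simp
    rw [smul_add, smul_smul, c1, hxpq]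
    module
  have hcomp : G (v + τ • x) ≤ F (v + τ • x) := by
    rw [hyd, hF.hom _ _ hp1.le, hG.hom _ _ hp1.le]
    exact mul_le_mul_of_nonneg_left (htouch _ hp2) hp1.le
  have h4F := hR.fourF hF hG hvS hτpos.le
  have h4G := hR.fourG hF hG hvS hτpos.le
  -- the auxiliary plane
  have hy : v + t • w + β • ctr F G (v + t • w) b = (1 + β * α) • (v + τ • x) := by
    have c1 : (1 + β * α) • (τ • x) = (β * γ) • x := by rw [smul_smul, hτN]
    have c2 : t + β * α * t - β * γ * (1 / M) = 0 := by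
      have : β * γ * (1 / M) = β * (κ + α * t) := by rw [hκ]; ring
      rw [this, mul_add, hβκ]; ring
    rw [smul_add, c1, ← hc, hb]
    have c3 : v + t • w + β • (α • (v + t • w) + γ • (x - (1 / M) • w))
        = (1 + β * α) • v + (β * γ) • x + (t + β * α * t - β * γ * (1 / M)) • w := by module
    rw [c3, c2, zero_smul, add_zero]
  have hR' := hP.rel hind
  have hvS' : v + t • w ∈ Submodule.span ℝ {v + t • w, b} := Submodule.subset_span (by simp)
  have h4F' := hR'.fourF hF hG hvS' hβpos.le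
  have h4G' := hR'.fourG hF hG hvS' hβpos.le
  rw [hy, hF.hom _ _ hNpos.le] at h4F'
  rw [hy, hG.hom _ _ hNpos.le] at h4G'
  rw [hFv] at h4F
  rw [hGv] at h4G
  constructor
  · exact touch_numF hNpos hf₀ hl₀pos hLpos hβpos (by linarith) hτN hN3 hβle hC
      (by linarith) h4F'
  · exact touch_numG hNpos hf₀ hl₀pos hLpos hβpos (by linarith) hτN hN2 hβle hC hrat
      (by linarith) h4G'

end Main

end Pool.Agent.H25.Star
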