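import Mathlib
import Pool.Agent.H63.Star.Iface2
import Pool.Agent.H25.Star.Touch

/-!
# Module D2: the main step (helper25) for MP_bd4439_gt

`mainStep : CoreStmt → TouchStmt → NoPlateauStmt → HyperStmt → MainStepStmt`.
-/

namespace Pool.Agent.H25.Star

open Set Filter Topology
open scoped RealInnerProductSpace
open Pool.Agent.H63.Star

section

variable {E : Type} [NormedAddCommGroup E] [InnerProductSpace ℝ E] [FiniteDimensional ℝ E]
  {F G : E → ℝ}

omit [FiniteDimensional ℝ E] in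
theorem ratio_hom (hF : IsGauge F) (hG : IsGauge G) {s : ℝ} (hs : 0 < s) (z : E) :
    F (s • z) / G (s • z) = F z / G z := by
  rw [hF.hom s z hs.le, hG.hom s z hs.le, mul_div_mul_left _ _ hs.ne']

omit [FiniteDimensional ℝ E] in
theorem ratio_contAt (hF : IsGauge F) (hG : IsGauge G) {z : E} (hz : z ≠ 0) :
    ContinuousAt (fun z => F z / G z) z :=
  hF.cont.continuousAt.div hG.cont.continuousAt (hG.pos z hz).ne'

/-- the ratio tends to `c₀` at infinity of the chart -/
theorem chart_infinity (hF : IsGauge F) (hG : IsGauge G) {e v₀ : E} {c₀ μ : ℝ}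
    (hv₀ : ⟪e, v₀⟫ = 1) (hyp : ∀ z, ⟪e, z⟫ = 0 → F z = c₀ * G z) (hμ : μ < c₀) :
    ∃ R : ℝ, ∀ y : E, ⟪e, y⟫ = 0 → R < ‖y‖ → μ < F (v₀ + y) / G (v₀ + y) := by
  by_contra hcon
  push Not at hcon
  have hex := fun n : ℕ => hcon (n + ‖v₀‖)
  choose y hye hyn hyr using hex
  have hz : ∀ n, ⟪e, v₀ + y n⟫ = 1 := fun n => by rw [inner_add_right, hv₀, hye, add_zero]
  have hne : ∀ n, v₀ + y n ≠ 0 := by
    intro n h0
    have := hz n
    rw [h0, inner_zero_right] at this
    exact zero_ne_one this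
  have hnorm : ∀ n : ℕ, (n : ℝ) ≤ ‖v₀ + y n‖ := by
    intro n
    have h1 : ‖y n‖ ≤ ‖v₀ + y n‖ + ‖v₀‖ := by
      calc ‖y n‖ = ‖(v₀ + y n) - v₀‖ := by rw [add_sub_cancel_left]
        _ ≤ _ := norm_sub_le _ _
    have := hyn n
    linarith
  have hnpos : ∀ n, 0 < ‖v₀ + y n‖ := fun n => norm_pos_iff.mpr (hne n)
  obtain ⟨a, ha, φ, hφ, hlim⟩ := (isCompact_sphere (0 : E) 1).tendsto_subseq
    (x := fun n => ‖v₀ + y n‖⁻¹ • (v₀ + y n)) (fun n => by
      rw [mem_sphere_zero_iff_norm, norm_smul, norm_inv, norm_norm, inv_mul_cancel₀ (hnpos n).ne'])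
  rw [mem_sphere_zero_iff_norm] at ha
  have ha0 : a ≠ 0 := by
    rintro rfl
    rw [norm_zero] at ha
    exact zero_ne_one ha
  have h1 : Tendsto (fun k => ⟪e, ‖v₀ + y (φ k)‖⁻¹ • (v₀ + y (φ k))⟫) atTop (𝓝 ⟪e, a⟫) :=
    tendsto_const_nhds.inner hlim
  have h2 : Tendsto (fun k => ⟪e, ‖v₀ + y (φ k)‖⁻¹ • (v₀ + y (φ k))⟫) atTop (𝓝 0) := by
    have e1 : (fun k => ⟪e, ‖v₀ + y (φ k)‖⁻¹ • (v₀ + y (φ k))⟫) = fun k => ‖v₀ + y (φ k)‖⁻¹ := by
      funext k
      rw [real_inner_smul_right, hz, mul_one]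
    rw [e1]
    have h3 : Tendsto (fun k => ‖v₀ + y (φ k)‖) atTop atTop := by
      refine tendsto_atTop_mono (fun k => hnorm (φ k)) ?_
      exact tendsto_natCast_atTop_atTop.comp hφ.tendsto_atTop
    exact tendsto_inv_atTop_zero.comp h3
  have h4 : ⟪e, a⟫ = 0 := tendsto_nhds_unique h1 h2
  have h5 : Tendsto (fun k => F (‖v₀ + y (φ k)‖⁻¹ • (v₀ + y (φ k))) /
      G (‖v₀ + y (φ k)‖⁻¹ • (v₀ + y (φ k)))) atTop (𝓝 (F a / G a)) :=
    (ratio_contAt hF hG ha0).tendsto.comp hlim
  have h6 : F a / G a ≤ μ := by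
    refine le_of_tendsto' h5 fun k => ?_
    rw [ratio_hom hF hG (inv_pos.mpr (hnpos _))]
    exact hyr (φ k)
  rw [hyp a h4, mul_div_assoc, div_self (hG.pos a ha0).ne', mul_one] at h6
  linarith

omit [FiniteDimensional ℝ E] in
theorem chart_indep {e v d : E} (hv : ⟪e, v⟫ ≠ 0) (hd : ⟪e, d⟫ = 0) (hd0 : d ≠ 0) :
    LinearIndependent ℝ ![v, d] := by
  rw [LinearIndependent.pair_iff]
  intro a b hab
  have ha : a = 0 := by
    have := congrArg (fun z => ⟪e, z⟫) hab
    simp only [inner_add_right, real_inner_smul_right, hd, mul_zero, add_zero,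
      inner_zero_right] at this
    rcases mul_eq_zero.1 this with h | h
    · exact h
    · exact absurd h hv
  rw [ha, zero_smul, zero_add] at hab
  refine ⟨ha, ?_⟩
  rcases smul_eq_zero.1 hab with h | h
  · exact h
  · exact absurd h hd0

theorem main_aux (hCore : CoreStmt) (hTouch : TouchStmt) (hNP : NoPlateauStmt)
    (hF : IsGauge F) (hG : IsGauge G) (hP : Planar F G) (hdim : 3 ≤ Module.finrank ℝ E)
    {e : E} {c₀ : ℝ} (he : e ≠ 0) (_hc₀ : 0 < c₀)
    (hyp : ∀ z, ⟪e, z⟫ = 0 → F z = c₀ * G z)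
    (hsym : ∀ u, u ≠ 0 → F u / G u = F (-u) / G (-u) → F u / G u = c₀)
    (hctr : ∀ v d, LinearIndependent ℝ ![v, d] → ctr F G v d = 0 →
        ∀ z ∈ Submodule.span ℝ {v, d}, F z = c₀ * G z)
    (hlow : ∃ u, 0 < ⟪e, u⟫ ∧ F u / G u < c₀) :
    ∃ (x : E) (l : ℝ), Rel F G ⊤ x l := by
  by_contra hno
  have hnofull : ∀ v, v ≠ 0 → ∃ d, LinearIndependent ℝ ![v, d] ∧ ¬ Cen F G v d := by
    intro v hv
    by_contra hcon
    push Not at hcon
    exact hno (full_pencil hP hF hG (by omega) hv hcon)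
  set X : Submodule ℝ E := (Submodule.span ℝ {e})ᗮ with hX
  have hmemX : ∀ y : E, y ∈ X ↔ ⟪e, y⟫ = 0 := by
    intro y
    rw [hX, Submodule.mem_orthogonal_singleton_iff_inner_right]
  have hen : 0 < ‖e‖ := norm_pos_iff.mpr he
  set v₀ : E := (‖e‖ ^ 2)⁻¹ • e with hv₀def
  have hv₀ : ⟪e, v₀⟫ = 1 := by
    rw [hv₀def, real_inner_smul_right, real_inner_self_eq_norm_sq, inv_mul_cancel₀ (by positivity)]
  have hone : ∀ y : X, ⟪e, v₀ + (y : E)⟫ = 1 := fun y => by
    rw [inner_add_right, hv₀, (hmemX _).1 y.2, add_zero]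
  have hne : ∀ y : X, v₀ + (y : E) ≠ 0 := by
    intro y h0
    have := hone y
    rw [h0, inner_zero_right] at this
    exact zero_ne_one this
  have hind : ∀ (y d : X), d ≠ 0 → LinearIndependent ℝ ![v₀ + (y : E), (d : E)] := by
    intro y d hd
    refine chart_indep (e := e) (by rw [hone]; exact one_ne_zero) ((hmemX _).1 d.2) ?_
    intro h0
    exact hd (Subtype.ext h0)
  set r : X → ℝ := fun y => F (v₀ + (y : E)) / G (v₀ + (y : E)) with hr
  have hrc : Continuous r := by
    rw [hr]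
    refine Continuous.div ?_ ?_ (fun y => (hG.pos _ (hne y)).ne')
    · exact hF.cont.comp (by fun_prop)
    · exact hG.cont.comp (by fun_prop)
  have hrpos : ∀ y, 0 < r y := fun y => div_pos (hF.pos _ (hne y)) (hG.pos _ (hne y))
  -- the minimum
  obtain ⟨u, hu, hur⟩ := hlow
  set yu : X := ⟨(⟪e, u⟫)⁻¹ • u - v₀, by
    rw [hmemX, inner_sub_right, hv₀, real_inner_smul_right, inv_mul_cancel₀ hu.ne', sub_self]⟩
    with hyu
  have hryu : r yu = F u / G u := by
    change F (v₀ + ((⟪e, u⟫)⁻¹ • u - v₀)) / G (v₀ + ((⟪e, u⟫)⁻¹ • u - v₀)) = _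
    rw [add_sub_cancel]
    exact ratio_hom hF hG (inv_pos.mpr hu) u
  obtain ⟨R₀, hR₀⟩ := chart_infinity hF hG hv₀ hyp hur
  set R := max R₀ ‖yu‖ with hR
  have hR' : ∀ y : X, R < ‖y‖ → r yu < r y := by
    intro y hy
    rw [hryu]
    exact hR₀ (y : E) ((hmemX _).1 y.2) ((le_max_left _ _).trans_lt hy)
  obtain ⟨y₁, hy₁, hmin⟩ := (isCompact_closedBall (0 : X) R).exists_isMinOn
    ⟨yu, by rw [mem_closedBall_zero_iff]; exact le_max_right _ _⟩ hrc.continuousOn
  have hmle : r y₁ ≤ r yu := hmin (by rw [mem_closedBall_zero_iff]; exact le_max_right _ _)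
  have hm : ∀ y, r y₁ ≤ r y := by
    intro y
    by_cases hy : ‖y‖ ≤ R
    · exact hmin (by rw [mem_closedBall_zero_iff]; exact hy)
    · exact hmle.trans (hR' y (not_le.mp hy)).le
  have hdimX : 2 ≤ Module.finrank ℝ X := by
    have h1 := Submodule.finrank_add_finrank_orthogonal (Submodule.span ℝ {e})
    rw [finrank_span_singleton he, ← hX] at h1
    omega
  -- uniqueness
  have huniq : ∀ (y d : X) (t : ℝ), d ≠ 0 → t ≠ 0 → Cen F G (v₀ + (y : E)) d →
      Cen F G (v₀ + ((y + t • d : X) : E)) d → ∀ s : ℝ, r (y + s • d) = c₀ := by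
    intro y d t hd ht h1 h2 s
    have hi := hind y d hd
    obtain ⟨a, ha⟩ := h1
    obtain ⟨b, hb⟩ := h2
    have hspan : Submodule.span ℝ {v₀ + ((y + t • d : X) : E), (d : E)}
        = Submodule.span ℝ {v₀ + (y : E), (d : E)} := by
      apply le_antisymm
      · rw [Submodule.span_le]
        rintro z (rfl | rfl)
        · change v₀ + ((y : E) + t • (d : E)) ∈ _
          rw [← add_assoc]
          exact Submodule.add_mem _ (Submodule.subset_span (by simp))
            (Submodule.smul_mem _ _ (Submodule.subset_span (by simp)))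
        · exact Submodule.subset_span (by simp)
      · rw [Submodule.span_le]
        rintro z (rfl | rfl)
        · have e1 : v₀ + (y : E) = (v₀ + ((y + t • d : X) : E)) - t • (d : E) := by
            change v₀ + (y : E) = (v₀ + ((y : E) + t • (d : E))) - t • (d : E)
            abel
          rw [e1]
          exact Submodule.sub_mem _ (Submodule.subset_span (by simp))
            (Submodule.smul_mem _ _ (Submodule.subset_span (by simp)))
        · exact Submodule.subset_span (by simp)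
    rw [ctr_congr hspan, ha] at hb
    have h3 : (a - b) • (v₀ + (y : E)) + (-(b * t)) • (d : E) = 0 := by
      have e2 : a • (v₀ + (y : E)) - b • (v₀ + ((y : E) + t • (d : E))) = 0 := by
        rw [sub_eq_zero]; exact hb
      rw [← e2]; module
    obtain ⟨h4, h5⟩ := LinearIndependent.pair_iff.1 hi _ _ h3
    have hb0 : b = 0 := by
      have : b * t = 0 := by linarith
      rcases mul_eq_zero.1 this with h | h
      · exact h
      · exact absurd h ht
    have ha0 : a = 0 := by rw [hb0] at h4; linarith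
    rw [ha0, zero_smul] at ha
    have h6 := hctr _ _ hi ha (v₀ + ((y + s • d : X) : E)) (by
      change v₀ + ((y : E) + s • (d : E)) ∈ _
      rw [← add_assoc]
      exact Submodule.add_mem _ (Submodule.subset_span (by simp))
        (Submodule.smul_mem _ _ (Submodule.subset_span (by simp))))
    change F (v₀ + ((y + s • d : X) : E)) / G (v₀ + ((y + s • d : X) : E)) = c₀
    rw [h6, mul_div_assoc, div_self (hG.pos _ (hne _)).ne', mul_one]
  have hvX : ∀ y : X, v₀ + (y : E) ∉ X := by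
    intro y hmem
    have := (hmemX _).1 hmem
    rw [hone] at this
    exact one_ne_zero this
  have halt := hCore X r (fun y d => Cen F G (v₀ + (y : E)) (d : E)) (r y₁) c₀ R hdimX hrc
    (by
      intro y d y₀ d₀ hy hd hd₀ h
      refine Cen.of_tendsto hP hF hG (hind y₀ d₀ hd₀) (L := atTop)
        (v := fun n => v₀ + (y n : E)) (d := fun n => (d n : E)) ?_ ?_
        (Frequently.of_forall h)
      · exact tendsto_const_nhds.add ((continuous_subtype_val.tendsto y₀).comp hy)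
      · exact (continuous_subtype_val.tendsto d₀).comp hd)
    (by
      intro y d t ht h
      exact h.smul_right ht)
    huniq
    (by
      intro y d n η hη hn hd hnd h
      have hn0 : (n : E) ≠ 0 := fun h0 => hn (Subtype.ext h0)
      refine hTouch E F G hF hG hP (v₀ + (y : E)) d n X (innerₛₗ ℝ (n : E)) η (hvX y) d.2
        (fun h0 => hd (Subtype.ext h0)) n.2 ?_ ?_ hη ?_
      · rw [innerₛₗ_apply_apply]; exact hnd
      · rw [innerₛₗ_apply_apply, real_inner_self_eq_norm_sq]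
        exact pow_ne_zero _ (norm_ne_zero_iff.mpr hn0)
      · intro k hk hkη
        have h1 := h ⟨k, hk⟩ hkη
        rw [innerₛₗ_apply_apply]
        have e1 : v₀ + (y : E) + k = v₀ + ((y + ⟨k, hk⟩ : X) : E) := by
          change _ = v₀ + ((y : E) + k)
          abel
        rw [e1]
        exact h1)
    (by
      intro y d n η hη hn hd hnd h
      have hn0 : (n : E) ≠ 0 := fun h0 => hn (Subtype.ext h0)
      refine Cen.symm hP.symm hG hF (hind y d hd) ?_
      refine hTouch E G F hG hF hP.symm (v₀ + (y : E)) d n X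
        ((-((r y) ^ 2)⁻¹) • innerₛₗ ℝ (n : E)) η (hvX y) d.2
        (fun h0 => hd (Subtype.ext h0)) n.2 ?_ ?_ hη ?_
      · rw [LinearMap.smul_apply, innerₛₗ_apply_apply]
        have : ⟪(n : E), (d : E)⟫ = 0 := hnd
        rw [this, smul_zero]
      · rw [LinearMap.smul_apply, innerₛₗ_apply_apply, real_inner_self_eq_norm_sq]
        refine smul_ne_zero (neg_ne_zero.mpr (inv_ne_zero (pow_ne_zero _ (hrpos y).ne')))
          (pow_ne_zero _ (norm_ne_zero_iff.mpr hn0))
      · intro k hk hkη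
        have h1 := h ⟨k, hk⟩ hkη
        rw [LinearMap.smul_apply, innerₛₗ_apply_apply, smul_eq_mul]
        have e1 : v₀ + (y : E) + k = v₀ + ((y + ⟨k, hk⟩ : X) : E) := by
          change _ = v₀ + ((y : E) + k)
          abel
        rw [e1]
        have h2 := hrpos (y + ⟨k, hk⟩)
        have h3 : G (v₀ + (y : E)) / F (v₀ + (y : E)) = (r y)⁻¹ := by rw [hr, inv_div]
        have h4 : G (v₀ + ((y + ⟨k, hk⟩ : X) : E)) / F (v₀ + ((y + ⟨k, hk⟩ : X) : E))
            = (r (y + ⟨k, hk⟩))⁻¹ := by rw [hr, inv_div]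
        rw [h3, h4]
        set A := r y with hA
        set B : ℝ := ⟪(n : E), k⟫ with hB
        have h5 : r (y + ⟨k, hk⟩) ≤ A + B := h1
        have hApos : 0 < A := hrpos y
        have hAB : 0 < A + B := h2.trans_le h5
        have h6 : (A + B)⁻¹ ≤ (r (y + ⟨k, hk⟩))⁻¹ := inv_anti₀ h2 h5
        refine le_trans ?_ h6
        rw [inv_eq_one_div (A + B), le_div_iff₀ hAB]
        have h7 : (A⁻¹ + -(A ^ 2)⁻¹ * B) * (A + B) = 1 - B ^ 2 / A ^ 2 := by
          field_simp
          ring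
        rw [h7]
        have : 0 ≤ B ^ 2 / A ^ 2 := by positivity
        linarith)
    hm ⟨y₁, rfl⟩ (fun y hy => hmle.trans_lt (hR' y hy)) (hmle.trans_lt (by rw [hryu]; exact hur))
  rcases halt with ⟨y, hy⟩ | ⟨y₀, ε, c, hε, hball, hesc⟩
  · -- full pencil
    obtain ⟨d, hd, hcd⟩ := hnofull (v₀ + (y : E)) (hne y)
    apply hcd
    set d' : X := ⟨d - ⟪e, d⟫ • (v₀ + (y : E)), by
      rw [hmemX, inner_sub_right, real_inner_smul_right, hone, mul_one, sub_self]⟩ with hd'
    have hd'0 : d' ≠ 0 := by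
      intro h0
      have h1 : d - ⟪e, d⟫ • (v₀ + (y : E)) = 0 := congrArg Subtype.val h0
      have h2 := LinearIndependent.pair_iff.1 hd (-⟪e, d⟫) 1 (by
        rw [← h1]; module)
      exact one_ne_zero h2.2
    have h1 : Cen F G (v₀ + (y : E)) (d' : E) := hy d' hd'0
    have h2 := h1.smul_add (s := 1) (t := 1) (c := ⟪e, d⟫) one_ne_zero one_ne_zero
    have h3 : (1 : ℝ) • (d' : E) + ⟪e, d⟫ • (v₀ + (y : E)) = d := by
      rw [hd']; simp
    rw [one_smul, h3] at h2
    exact h2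
  · -- plateau
    have hcpos : 0 < c := by
      rw [← hball y₀ (Metric.mem_ball_self hε)]
      exact hrpos y₀
    set G' : E → ℝ := fun z => c * G z with hG'
    have hG'g : IsGauge G' := gauge_scale hG hcpos
    have hP' : Planar F G' := fun S hS => by
      obtain ⟨x, l, hxl⟩ := hP S hS
      exact ⟨x, _, rel_scale hG hcpos hxl⟩
    have hctr' : ∀ a b, LinearIndependent ℝ ![a, b] → ctr F G' a b = ctr F G a b := by
      intro a b hab
      have h1 := rel_scale hG hcpos (hP.rel hab)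
      have h2 := hP'.rel hab
      exact (h2.unique (span_pair_ne_bot hab) hF hG'g h1).1
    -- normalised projection to the chart
    have hproj : ∀ z : E, 0 < ⟪e, z⟫ → ∃ y : X, (⟪e, z⟫)⁻¹ • z = v₀ + (y : E) := by
      intro z hz
      refine ⟨⟨(⟪e, z⟫)⁻¹ • z - v₀, by
        rw [hmemX, inner_sub_right, hv₀, real_inner_smul_right, inv_mul_cancel₀ hz.ne',
          sub_self]⟩, ?_⟩
      change _ = v₀ + ((⟪e, z⟫)⁻¹ • z - v₀)
      rw [add_sub_cancel]
    obtain ⟨ε', hε', hball'⟩ : ∃ ε' > 0, ∀ z ∈ Metric.ball (v₀ + (y₀ : E)) ε',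
        0 < ⟪e, z⟫ ∧ ∀ y : X, (⟪e, z⟫)⁻¹ • z = v₀ + (y : E) → y ∈ Metric.ball y₀ ε := by
      have c1 : ContinuousAt (fun z : E => ⟪e, z⟫) (v₀ + (y₀ : E)) := by fun_prop
      have c2 : ContinuousAt (fun z : E => (⟪e, z⟫)⁻¹ • z) (v₀ + (y₀ : E)) :=
        (c1.inv₀ (by rw [hone]; exact one_ne_zero)).smul continuousAt_id
      have h1 : ∀ᶠ z in 𝓝 (v₀ + (y₀ : E)), 0 < ⟪e, z⟫ :=
        c1.tendsto.eventually (lt_mem_nhds (by rw [hone]; exact one_pos))
      have h2 : ∀ᶠ z in 𝓝 (v₀ + (y₀ : E)), (⟪e, z⟫)⁻¹ • z ∈ Metric.ball (v₀ + (y₀ : E)) ε := by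
        apply c2.tendsto.eventually
        rw [hone, inv_one, one_smul]
        exact Metric.ball_mem_nhds _ hε
      obtain ⟨ε', hε', hh⟩ := Metric.eventually_nhds_iff.mp (h1.and h2)
      refine ⟨ε', hε', fun z hz => ?_⟩
      obtain ⟨g1, g2⟩ := hh hz
      refine ⟨g1, fun y hy => ?_⟩
      rw [hy, Metric.mem_ball, dist_add_left] at g2
      exact g2
    refine hNP E F G' hF hG'g hP' hdim (c₀ / c) (v₀ + (y₀ : E)) ε' ?_ (hne y₀) hε' ?_ ?_ ?_
    · intro u hu h1
      have hGu := hG.pos u hu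
      have hGnu := hG.pos (-u) (neg_ne_zero.mpr hu)
      have e1 : F u / G' u = F u / G u / c := by
        change F u / (c * G u) = _
        rw [mul_comm, div_div]
      have e2 : F (-u) / G' (-u) = F (-u) / G (-u) / c := by
        change F (-u) / (c * G (-u)) = _
        rw [mul_comm, div_div]
      rw [e1, e2] at h1
      rw [e1, hsym u hu ((div_left_inj' hcpos.ne').1 h1)]
    · intro z hz
      obtain ⟨g1, g2⟩ := hball' z hz
      obtain ⟨y, hy⟩ := hproj z g1
      have h1 := hball y (g2 y hy)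
      have h2 : F z / G z = c := by
        rw [← ratio_hom hF hG (inv_pos.mpr g1) z, hy]
        exact h1
      have hz0 : z ≠ 0 := by
        rintro rfl
        rw [inner_zero_right] at g1
        exact lt_irrefl _ g1
      change F z = c * G z
      rw [div_eq_iff (hG.pos z hz0).ne'] at h2
      exact h2
    · intro z hz d hzd h0
      obtain ⟨g1, g2⟩ := hball' z hz
      obtain ⟨y, hy⟩ := hproj z g1
      rw [hctr' z d hzd] at h0
      have h1 := hctr z d hzd h0
      set d' : X := ⟨d - (⟪e, d⟫ / ⟪e, z⟫) • z, by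
        rw [hmemX, inner_sub_right, real_inner_smul_right, div_mul_cancel₀ _ g1.ne', sub_self]⟩
        with hd'
      have hd'0 : d' ≠ 0 := by
        intro hh
        have h2 : d - (⟪e, d⟫ / ⟪e, z⟫) • z = 0 := congrArg Subtype.val hh
        have h3 := LinearIndependent.pair_iff.1 hzd (-(⟪e, d⟫ / ⟪e, z⟫)) 1 (by
          rw [← h2]; module)
        exact one_ne_zero h3.2
      obtain ⟨s, hs⟩ := hesc y (g2 y hy) d' hd'0
      apply hs
      have hmem : v₀ + ((y + s • d' : X) : E) ∈ Submodule.span ℝ {z, d} := by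
        change v₀ + ((y : E) + s • (d - (⟪e, d⟫ / ⟪e, z⟫) • z)) ∈ _
        rw [← add_assoc, ← hy]
        refine Submodule.add_mem _ (Submodule.smul_mem _ _ (Submodule.subset_span (by simp)))
          (Submodule.smul_mem _ _ (Submodule.sub_mem _ (Submodule.subset_span (by simp))
            (Submodule.smul_mem _ _ (Submodule.subset_span (by simp)))))
      change F (v₀ + ((y + s • d' : X) : E)) / G (v₀ + ((y + s • d' : X) : E)) = c₀
      rw [h1 _ hmem, mul_div_assoc, div_self (hG.pos _ (hne _)).ne', mul_one]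
    · intro z hz
      obtain ⟨d, hd, hcd⟩ := hnofull z hz
      refine ⟨d, hd, fun hh => hcd ?_⟩
      obtain ⟨a, ha⟩ := hh
      exact ⟨a, by rw [← hctr' z d hd]; exact ha⟩

end

/-- **Module D2.** -/
theorem mainStep (hCore : CoreStmt) (hTouch : TouchStmt) (hNP : NoPlateauStmt)
    (hHyper : HyperStmt) : MainStepStmt := by
  intro E _ _ _ F G hF hG hdim hsub
  have hP : Planar F G := Planar.of_sub hdim hsub
  obtain ⟨e, c₀, he, hc₀, hyp, hsym, hctr⟩ := hHyper E F G hF hG hdim hsub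
  by_cases hall : ∀ u, F u = c₀ * G u
  · refine ⟨0, c₀⁻¹, Rel.of_const (inv_pos.mpr hc₀) hF fun z _ => ?_⟩
    rw [hall z, ← mul_assoc, inv_mul_cancel₀ hc₀.ne', one_mul]
  push Not at hall
  obtain ⟨u, hu⟩ := hall
  have hu0 : u ≠ 0 := by
    rintro rfl
    apply hu
    rw [hF.zero, hG.zero, mul_zero]
  have hGu := hG.pos u hu0
  have hFu := hF.pos u hu0
  have heu : ⟪e, u⟫ ≠ 0 := fun h0 => hu (hyp u h0)
  have hru : F u / G u ≠ c₀ := fun h0 => hu (by rw [← h0, div_mul_cancel₀ _ hGu.ne'])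
  -- sign of `e`
  obtain ⟨e', he', heu', hyp'⟩ : ∃ e' : E, e' ≠ 0 ∧ 0 < ⟪e', u⟫ ∧
      ∀ z, ⟪e', z⟫ = 0 → F z = c₀ * G z := by
    rcases lt_or_gt_of_ne heu with h | h
    · refine ⟨-e, neg_ne_zero.mpr he, ?_, fun z hz => hyp z ?_⟩
      · rw [inner_neg_left]; linarith
      · rw [inner_neg_left, neg_eq_zero] at hz; exact hz
    · exact ⟨e, he, h, hyp⟩
  rcases lt_or_gt_of_ne hru with hlt | hgt
  · exact main_aux hCore hTouch hNP hF hG hP hdim he' hc₀ hyp' hsym hctr ⟨u, heu', hlt⟩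
  · have hyp'' : ∀ z, ⟪e', z⟫ = 0 → G z = c₀⁻¹ * F z := by
      intro z hz
      rw [hyp' z hz, ← mul_assoc, inv_mul_cancel₀ hc₀.ne', one_mul]
    have hsym' : ∀ u, u ≠ 0 → G u / F u = G (-u) / F (-u) → G u / F u = c₀⁻¹ := by
      intro u hu h1
      have h2 : F u / G u = F (-u) / G (-u) := by
        rw [← inv_div, h1, inv_div]
      rw [← inv_div, hsym u hu h2]
    have hctr' : ∀ v d, LinearIndependent ℝ ![v, d] → ctr G F v d = 0 →
        ∀ z ∈ Submodule.span ℝ {v, d}, G z = c₀⁻¹ * F z := by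
      intro v d hvd h0 z hz
      have h1 : ctr F G v d = 0 := by
        have h2 := (ctr_symm hP hF hG hvd).1
        rw [h0, eq_comm, neg_eq_zero] at h2
        rcases smul_eq_zero.1 h2 with h | h
        · exact absurd h (inv_ne_zero (rat_pos F G v d).ne')
        · exact h
      rw [hctr v d hvd h1 z hz, ← mul_assoc, inv_mul_cancel₀ hc₀.ne', one_mul]
    have hlow : G u / F u < c₀⁻¹ := by
      rw [← inv_div]
      exact inv_strictAnti₀ hc₀ hgt
    obtain ⟨x, l, hR⟩ := main_aux hCore hTouch hNP hG hF hP.symm hdim he' (inv_pos.mpr hc₀) hyp''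
      hsym' hctr' ⟨u, heu', hlow⟩
    exact ⟨_, _, hR.symm⟩

end Pool.Agent.H25.Star
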