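import Mathlib
import Pool.Agent.H25.Star.Touch

/-!
# Module A: the touching lemma (helper25) for MP_bd4439_gt, second part
-/

namespace Pool.Agent.H25.Star

open Set Filter Topology
open scoped RealInnerProductSpace
open Pool.Agent.H63.Star

variable {E : Type*} [NormedAddCommGroup E] [InnerProductSpace ℝ E] [FiniteDimensional ℝ E]
  {F G : E → ℝ}

theorem touch_aux (hF : IsGauge F) (hG : IsGauge G) (hP : Planar F G) {v d w' : E}
    {X : Submodule ℝ E} {ℓ : E →ₗ[ℝ] ℝ} {η : ℝ} (hv : v ∉ X) (hd : d ∈ X) (hd0 : d ≠ 0)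
    (hw' : w' ∈ X) (hℓd : ℓ d = 0) (hℓw' : ℓ w' ≠ 0) (hη : 0 < η) (hFG : F v = G v)
    (h : ∀ h ∈ X, ‖h‖ < η → (1 + ℓ h) * G (v + h) ≤ F (v + h)) : Cen F G v d := by
  by_contra hcen
  have hv0 : v ≠ 0 := by
    rintro rfl
    exact hv X.zero_mem
  set f₀ := G v with hf₀def
  have hf₀ : 0 < f₀ := hG.pos v hv0
  have hvX : ∀ (a : ℝ) (y : E), y ∈ X → a • v + y = 0 → a = 0 ∧ y = 0 := by
    intro a y hy hay
    have ha : a = 0 := by
      by_contra ha
      apply hv
      have : v = a⁻¹ • (-y) := by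
        rw [← eq_neg_iff_add_eq_zero] at hay
        rw [← hay, smul_smul, inv_mul_cancel₀ ha, one_smul]
      rw [this]
      exact X.smul_mem _ (X.neg_mem hy)
    rw [ha, zero_smul, zero_add] at hay
    exact ⟨ha, hay⟩
  have hdw : ∀ a b : ℝ, a • d + b • w' = 0 → a = 0 ∧ b = 0 := by
    intro a b hab
    have hb : b = 0 := by
      have := congrArg ℓ hab
      simp only [map_add, map_smul, hℓd, smul_eq_mul, mul_zero, zero_add, map_zero] at this
      rcases mul_eq_zero.1 this with h | h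
      · exact h
      · exact absurd h hℓw'
    rw [hb, zero_smul, add_zero] at hab
    refine ⟨?_, hb⟩
    rcases smul_eq_zero.1 hab with h | h
    · exact h
    · exact absurd h hd0
  have hvd : LinearIndependent ℝ ![v, d] := by
    rw [LinearIndependent.pair_iff]
    intro a b hab
    obtain ⟨h1, h2⟩ := hvX a (b • d) (X.smul_mem _ hd) hab
    refine ⟨h1, ?_⟩
    rcases smul_eq_zero.1 h2 with h | h
    · exact h
    · exact absurd h hd0
  have hvdw : LinearIndependent ℝ ![v, d, w'] := by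
    rw [Fintype.linearIndependent_iff]
    intro g hg
    simp only [Fin.sum_univ_three, Matrix.cons_val_zero, Matrix.cons_val_one,
      Matrix.cons_val] at hg
    rw [add_assoc] at hg
    obtain ⟨h1, h2⟩ := hvX _ _ (X.add_mem (X.smul_mem _ hd) (X.smul_mem _ hw')) hg
    obtain ⟨h3, h4⟩ := hdw _ _ h2
    intro i
    fin_cases i
    · exact h1
    · exact h3
    · exact h4
  obtain ⟨s, t, hst, hind, hcD⟩ := exists_cen hP hF hG hvdw
  have ht : t ≠ 0 := by
    rintro rfl
    rw [zero_smul, add_zero] at hcD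
    have hs : s ≠ 0 := by
      rintro rfl
      exact hst rfl
    have := hcD.smul_right (inv_ne_zero hs)
    rw [smul_smul, inv_mul_cancel₀ hs, one_smul] at this
    exact hcen this
  -- the direction `w`
  obtain ⟨w, hwX, hcw, hindw, hℓw, hwst⟩ : ∃ w ∈ X, Cen F G v w ∧ LinearIndependent ℝ ![v, w] ∧
      0 < ℓ w ∧ ∀ a b : ℝ, a • d + b • w = 0 → a = 0 ∧ b = 0 := by
    set D := s • d + t • w' with hD
    have hDX : D ∈ X := X.add_mem (X.smul_mem _ hd) (X.smul_mem _ hw')
    have hℓD : ℓ D ≠ 0 := by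
      rw [hD]
      simp only [map_add, map_smul, hℓd, smul_eq_mul, mul_zero, zero_add]
      exact mul_ne_zero ht hℓw'
    have hgen : ∀ w : E, 0 < ℓ w → ∀ a b : ℝ, a • d + b • w = 0 → a = 0 ∧ b = 0 := by
      intro w hw a b hab
      have hb : b = 0 := by
        have := congrArg ℓ hab
        simp only [map_add, map_smul, hℓd, smul_eq_mul, mul_zero, zero_add, map_zero] at this
        rcases mul_eq_zero.1 this with h | h
        · exact h
        · exact absurd h hw.ne'
      rw [hb, zero_smul, add_zero] at hab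
      refine ⟨?_, hb⟩
      rcases smul_eq_zero.1 hab with h | h
      · exact h
      · exact absurd h hd0
    rcases lt_or_gt_of_ne hℓD with hneg | hpos
    · have hpos : 0 < ℓ ((-1 : ℝ) • D) := by rw [map_smul, smul_eq_mul]; linarith
      refine ⟨(-1 : ℝ) • D, X.smul_mem _ hDX, hcD.smul_right (by norm_num), ?_, hpos,
        hgen _ hpos⟩
      have := indep_smul hind (s := 1) (t := -1) (c := 0) one_ne_zero (by norm_num)
      simpa using this
    · exact ⟨D, hDX, hcD, hind, hpos, hgen _ hpos⟩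
  set e := ℓ w with he
  -- the vector `x`
  set x := ctr F G v d with hx
  obtain ⟨p, q, hpq⟩ := Submodule.mem_span_pair.1 (ctr_mem F G v d)
  rw [← hx] at hpq
  have hq : q ≠ 0 := by
    rintro rfl
    apply hcen
    refine ⟨p, ?_⟩
    rw [← hx, ← hpq, zero_smul, add_zero]
  have hxpq : x = q • d + p • v := by rw [← hpq, add_comm]
  have hv1 : v ∉ Submodule.span ℝ {x, w} := by
    intro hmem
    obtain ⟨c1, c2, hc⟩ := Submodule.mem_span_pair.1 hmem
    have e1 : (c1 * p - 1) • v + ((c1 * q) • d + c2 • w) = 0 := by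
      have : (c1 * p - 1) • v + ((c1 * q) • d + c2 • w) = (c1 • x + c2 • w) - v := by
        rw [hxpq]; module
      rw [this, hc, sub_self]
    obtain ⟨h1, h2⟩ := hvX _ _ (X.add_mem (X.smul_mem _ hd) (X.smul_mem _ hwX)) e1
    obtain ⟨h3, h4⟩ := hwst _ _ h2
    have hc1 : c1 = 0 := by
      rcases mul_eq_zero.1 h3 with h | h
      · exact h
      · exact absurd h hq
    rw [hc1] at h1
    norm_num at h1
  have hx1 : x ∉ Submodule.span ℝ {v, w} := by
    intro hmem
    obtain ⟨c1, c2, hc⟩ := Submodule.mem_span_pair.1 hmem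
    have e1 : (p - c1) • v + (q • d + (-c2) • w) = 0 := by
      have : (p - c1) • v + (q • d + (-c2) • w) = x - (c1 • v + c2 • w) := by
        rw [hxpq]; module
      rw [this, hc, sub_self]
    obtain ⟨h1, h2⟩ := hvX _ _ (X.add_mem (X.smul_mem _ hd) (X.smul_mem _ hwX)) e1
    exact hq (hwst _ _ h2).1
  obtain ⟨C, η₃, hη₃, hlip⟩ := touch_lip hF hG hP hvd hx hxpq hq hf₀ hFG rfl hη (fun s hs => by
    have := h (s • d) (X.smul_mem _ hd) hs
    rw [map_smul, hℓd, smul_zero, add_zero, one_mul] at this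
    exact this) hv1 hx1
  -- the centred plane
  obtain ⟨a, ha⟩ := hcw
  have hR := hP.rel hindw
  rw [ha] at hR
  set l := rat F G v w with hl
  have hlpos : 0 < l := hR.2.1
  have hvS : v ∈ Submodule.span ℝ {v, w} := Submodule.subset_span (by simp)
  have hvtS : ∀ t : ℝ, v + t • w ∈ Submodule.span ℝ {v, w} := fun t =>
    Submodule.add_mem _ hvS (Submodule.smul_mem _ _ (Submodule.subset_span (by simp)))
  have hal : a * f₀ + l = 1 := by
    have := (hR.cen_data hF hG hv0 hvS).1
    rw [hFG, ← hf₀def, div_self hf₀.ne'] at this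
    exact this
  have hvtne : ∀ t : ℝ, v + t • w ≠ 0 := by
    intro t h0
    have := (hvX 1 (t • w) (X.smul_mem _ hwX) (by rw [one_smul]; exact h0)).1
    exact one_ne_zero this
  -- small `t`
  obtain ⟨η₁, hη₁, hsmall⟩ : ∃ η₁ > 0, ∀ t : ℝ, 0 < t → t ≤ η₁ →
      ‖t • w‖ < η ∧ e * t ≤ 1 / 2 ∧ |F (v + t • w) / f₀ - 1| ≤ 1 / 4 ∧
        |G (v + t • w) / f₀ - 1| ≤ 1 / 4 := by
    have c0 : Continuous fun t : ℝ => v + t • w := by fun_prop
    have c1 : Tendsto (fun t : ℝ => ‖t • w‖) (𝓝 0) (𝓝 0) := by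
      have : Continuous fun t : ℝ => ‖t • w‖ := by fun_prop
      simpa using this.tendsto 0
    have c2 : Tendsto (fun t : ℝ => e * t) (𝓝 0) (𝓝 0) := by
      have : Continuous fun t : ℝ => e * t := by fun_prop
      simpa using this.tendsto 0
    have c3 : Tendsto (fun t : ℝ => |F (v + t • w) / f₀ - 1|) (𝓝 0) (𝓝 0) := by
      have : Continuous fun t : ℝ => |F (v + t • w) / f₀ - 1| :=
        (((hF.cont.comp c0).div_const _).sub continuous_const).abs
      have h1 := this.tendsto 0
      rw [zero_smul, add_zero, hFG, div_self hf₀.ne', sub_self, abs_zero] at h1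
      exact h1
    have c4 : Tendsto (fun t : ℝ => |G (v + t • w) / f₀ - 1|) (𝓝 0) (𝓝 0) := by
      have : Continuous fun t : ℝ => |G (v + t • w) / f₀ - 1| :=
        (((hG.cont.comp c0).div_const _).sub continuous_const).abs
      have h1 := this.tendsto 0
      rw [zero_smul, add_zero, ← hf₀def, div_self hf₀.ne', sub_self, abs_zero] at h1
      exact h1
    have h1 := c1.eventually (gt_mem_nhds hη)
    have h2 := c2.eventually (gt_mem_nhds (show (0 : ℝ) < 1 / 2 by norm_num))
    have h3 := c3.eventually (gt_mem_nhds (show (0 : ℝ) < 1 / 4 by norm_num))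
    have h4 := c4.eventually (gt_mem_nhds (show (0 : ℝ) < 1 / 4 by norm_num))
    obtain ⟨ε, hε, hh⟩ := Metric.eventually_nhds_iff.mp (((h1.and h2).and h3).and h4)
    refine ⟨ε / 2, by positivity, fun t ht htε => ?_⟩
    obtain ⟨⟨⟨g1, g2⟩, g3⟩, g4⟩ := hh (y := t) (by
      rw [Real.dist_eq, sub_zero, abs_of_pos ht]; linarith)
    exact ⟨g1, g2.le, g3.le, g4.le⟩
  have hepos : 0 < e := hℓw
  have hkey : ∀ t : ℝ, 0 < t → t ≤ η₁ →
      (1 + e * t) * (G (v + t • w) / f₀) ≤ F (v + t • w) / f₀ := by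
    intro t ht htη
    have h1 := h (t • w) (X.smul_mem _ hwX) (hsmall t ht htη).1
    rw [map_smul, smul_eq_mul, ← he, mul_comm t e] at h1
    rw [← mul_div_assoc]
    exact div_le_div_of_nonneg_right h1 hf₀.le
  rcases lt_trichotomy l 1 with hl1 | hl1 | hl1
  · -- `l < 1`
    obtain ⟨t, ht, htη₃, htη₁, hCt⟩ := touch_iter (P := fun t => 1 - F (v + t • w) / f₀) hη₁ hepos
      (fun t ht htη => by
        have := (abs_le.1 (hsmall t ht htη).2.2.1).1
        linarith)
      (fun t ht htη => by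
        obtain ⟨t', ht', htt', heq⟩ := selfmap hF hG hR hf₀ hal hl1 (hvtS t) (hvtne t) ht
        refine ⟨t', ht', htt'.le, ?_⟩
        have e1 : (1 - F (v + t' • w) / f₀) / t' = (1 - G (v + t • w) / f₀) / t := by
          have h1 : (1 - F (v + t' • w) / f₀) / t' = -((F (v + t' • w) / f₀ - 1) / t') := by ring
          rw [h1, heq]; ring
        change (1 - F (v + t • w) / f₀) / t + e / 2 ≤ (1 - F (v + t' • w) / f₀) / t'
        rw [e1, le_div_iff₀ ht, add_mul, div_mul_cancel₀ _ ht.ne']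
        have k1 := hkey t ht htη
        obtain ⟨-, k2, k3, k4⟩ := hsmall t ht htη
        rw [abs_le] at k3
        set F1 := F (v + t • w) / f₀
        set G1 := G (v + t • w) / f₀
        by_contra hcon
        push Not at hcon
        have g1 : 0 < e * t := mul_pos hepos ht
        have g2 : F1 - e * t / 2 < G1 := by linarith
        have g3 : 1 / 2 ≤ F1 - e * t / 2 := by linarith [k3.1]
        nlinarith)
      (C / f₀) η₃ hη₃
    have h1 := (hlip t ht htη₃).1
    have h2 : C / f₀ * t < 1 - F (v + t • w) / f₀ := hCt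
    have h3 : C / f₀ * t * f₀ < (1 - F (v + t • w) / f₀) * f₀ := mul_lt_mul_of_pos_right h2 hf₀
    have h4 : C / f₀ * t * f₀ = C * t := by field_simp
    have h5 : (1 - F (v + t • w) / f₀) * f₀ = f₀ - F (v + t • w) := by field_simp
    linarith
  · -- `l = 1`
    have ha0 : a = 0 := by
      have : a * f₀ = 0 := by linarith
      rcases mul_eq_zero.1 this with h | h
      · exact h
      · exact absurd h hf₀.ne'
    rw [ha0, zero_smul] at hR
    have h1 := hR.zero_const hF hG (hvtS η₁)
    rw [hl1, one_mul] at h1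
    have h2 := hkey η₁ hη₁ le_rfl
    rw [h1] at h2
    have h3 : 0 < G (v + η₁ • w) / f₀ := div_pos (hG.pos _ (hvtne η₁)) hf₀
    nlinarith [mul_pos hepos hη₁, mul_pos (mul_pos hepos hη₁) h3]
  · -- `1 < l`
    have hR' : Rel G F (Submodule.span ℝ {v, w}) ((-(l⁻¹ * a)) • v) l⁻¹ := by
      have h1 := hR.symm
      have h2 : -(l⁻¹ • a • v) = (-(l⁻¹ * a)) • v := by module
      rw [h2] at h1
      exact h1
    have hal' : -(l⁻¹ * a) * f₀ + l⁻¹ = 1 := by
      have h1 : -(l⁻¹ * a) * f₀ + l⁻¹ = l⁻¹ * (1 - a * f₀) := by ring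
      have h2 : 1 - a * f₀ = l := by linarith
      rw [h1, h2, inv_mul_cancel₀ hlpos.ne']
    have hl1' : l⁻¹ < 1 := inv_lt_one_of_one_lt₀ hl1
    obtain ⟨t, ht, htη₃, htη₁, hCt⟩ := touch_iter (P := fun t => G (v + t • w) / f₀ - 1) hη₁ hepos
      (fun t ht htη => by
        have := (abs_le.1 (hsmall t ht htη).2.2.2).2
        linarith)
      (fun t ht htη => by
        obtain ⟨t', ht', htt', heq⟩ := selfmap hG hF hR' hf₀ hal' hl1' (hvtS t) (hvtne t) ht
        refine ⟨t', ht', htt'.le, ?_⟩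
        rw [heq, le_div_iff₀ ht, add_mul, div_mul_cancel₀ _ ht.ne']
        have k1 := hkey t ht htη
        obtain ⟨-, k2, k3, k4⟩ := hsmall t ht htη
        rw [abs_le] at k4
        set F1 := F (v + t • w) / f₀
        set G1 := G (v + t • w) / f₀
        have g1 : 0 < e * t := mul_pos hepos ht
        nlinarith [k4.1])
      (C / f₀) η₃ hη₃
    have h1 := (hlip t ht htη₃).2
    have h2 : C / f₀ * t < G (v + t • w) / f₀ - 1 := hCt
    have h3 : C / f₀ * t * f₀ < (G (v + t • w) / f₀ - 1) * f₀ := mul_lt_mul_of_pos_right h2 hf₀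
    have h4 : C / f₀ * t * f₀ = C * t := by field_simp
    have h5 : (G (v + t • w) / f₀ - 1) * f₀ = G (v + t • w) - f₀ := by field_simp
    linarith

/-- **Module A.** -/
theorem touch : TouchStmt := by
  intro E _ _ _ F G hF hG hP v d w' X ℓ η hv hd hd0 hw' hℓd hℓw' hη h
  have hv0 : v ≠ 0 := by
    rintro rfl
    exact hv X.zero_mem
  have hGv := hG.pos v hv0
  have hFv := hF.pos v hv0
  set r₀ := F v / G v with hr₀
  have hr₀pos : 0 < r₀ := div_pos hFv hGv
  set G' : E → ℝ := fun z => r₀ * G z with hG'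
  have hG'g : IsGauge G' := gauge_scale hG hr₀pos
  have hP' : Planar F G' := fun S hS => by
    obtain ⟨x, l, hxl⟩ := hP S hS
    exact ⟨x, _, rel_scale hG hr₀pos hxl⟩
  have hvd : LinearIndependent ℝ ![v, d] := by
    rw [LinearIndependent.pair_iff]
    intro a b hab
    have ha : a = 0 := by
      by_contra ha
      apply hv
      have : v = a⁻¹ • (-(b • d)) := by
        rw [← eq_neg_iff_add_eq_zero] at hab
        rw [← hab, smul_smul, inv_mul_cancel₀ ha, one_smul]
      rw [this]
      exact X.smul_mem _ (X.neg_mem (X.smul_mem _ hd))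
    rw [ha, zero_smul, zero_add] at hab
    refine ⟨ha, ?_⟩
    rcases smul_eq_zero.1 hab with h | h
    · exact h
    · exact absurd h hd0
  have hcen : Cen F G' v d := by
    refine touch_aux (ℓ := r₀⁻¹ • ℓ) hF hG'g hP' hv hd hd0 hw' ?_ ?_ hη ?_ ?_
    · rw [LinearMap.smul_apply, hℓd, smul_zero]
    · rw [LinearMap.smul_apply]
      exact smul_ne_zero (inv_ne_zero hr₀pos.ne') hℓw'
    · rw [hG', hr₀]
      field_simp
    · intro k hk hkη
      have h1 := h k hk hkη
      have hne : v + k ≠ 0 := by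
        intro h0
        apply hv
        rw [eq_neg_of_add_eq_zero_left h0]
        exact X.neg_mem hk
      have hGk := hG.pos _ hne
      rw [le_div_iff₀ hGk] at h1
      rw [LinearMap.smul_apply, smul_eq_mul]
      change (1 + r₀⁻¹ * ℓ k) * (r₀ * G (v + k)) ≤ F (v + k)
      have h2 : (1 + r₀⁻¹ * ℓ k) * (r₀ * G (v + k)) = (r₀ + ℓ k) * G (v + k) := by
        field_simp
      rw [h2]
      exact h1
  obtain ⟨c, hc⟩ := hcen
  refine ⟨c, ?_⟩
  have h1 := rel_scale hG hr₀pos (hP.rel hvd)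
  have h2 := hP'.rel hvd
  rw [(h1.unique (span_pair_ne_bot hvd) hF hG'g h2).1]
  exact hc

end Pool.Agent.H25.Star
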